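import Pool.Agent.J4H63.EY.Trace

/-!
# Few questions outside the promise give few computations
-/

namespace Pool.Agent.J4H63.EY

open Pool.Agent.NPC Pool.Agent.H628R3.RO Pool.Agent.J4H63.ESY Pool.Agent.J4H63.GO

variable {M : Alg} {X X' : Oracle} {x : List Bool}

theorem prefix_trace : ∀ (n : ℕ) (a : List Bool), a <+: trace M X x n a := by
  intro n
  induction n with
  | zero => intro a; exact List.prefix_rfl
  | succ n ih =>
    intro a
    rw [trace_succ]
    split_ifs with h
    · exact (List.prefix_append _ _).trans (ih _)
    · exact List.prefix_rfl

theorem length_trace : ∀ (n : ℕ) (a : List Bool), (trace M X x n a).length ≤ a.length + n := by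
  intro n
  induction n with
  | zero => intro a; exact le_rfl
  | succ n ih =>
    intro a
    rw [trace_succ]
    split_ifs with h
    · have := ih (a ++ [X (nxt M x a)])
      rw [List.length_append, List.length_singleton] at this
      omega
    · omega

theorem trace_stop : ∀ (n : ℕ) (a : List Bool), (trace M X x n a).length < a.length + n →
    asking M x (trace M X x n a) = false := by
  intro n
  induction n with
  | zero => intro a h; exact absurd h (by simp [trace])
  | succ n ih =>
    intro a
    rw [trace_succ]
    split_ifs with h
    · intro h1
      refine ih _ ?_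
      rw [List.length_append, List.length_singleton]
      omega
    · intro _
      simpa using h

theorem trace_step : ∀ (n : ℕ) (a : List Bool) {c : List Bool} {b : Bool},
    c ++ [b] <+: trace M X x n a → a <+: c → asking M x c = true ∧ X (nxt M x c) = b := by
  intro n
  induction n with
  | zero =>
    intro a c b h h1
    have h2 := h.length_le
    have h3 := h1.length_le
    rw [List.length_append, List.length_singleton] at h2
    simp only [trace] at h2
    omega
  | succ n ih =>
    intro a c b h h1
    rw [trace_succ] at h
    split_ifs at h with h2
    · rcases Nat.lt_or_ge a.length c.length with h3 | h3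
      · refine ih _ h ?_
        have h4 : c <+: trace M X x n (a ++ [X (nxt M x a)]) := (List.prefix_append _ _).trans h
        exact List.prefix_of_prefix_length_le (prefix_trace _ _) h4 (by
          rw [List.length_append, List.length_singleton]; omega)
      · have h4 : a = c := h1.eq_of_length (le_antisymm h1.length_le h3)
        subst h4
        have h5 := List.prefix_of_prefix_length_le h (prefix_trace n (a ++ [X (nxt M x a)])) (by
          rw [List.length_append, List.length_append]; simp)
        have h6 := h5.eq_of_length (by rw [List.length_append, List.length_append]; simp)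
        have h7 := (List.append_inj' h6 rfl).2
        exact ⟨h2, by simpa using h7.symm⟩
    · have h3 := h.length_le
      have h4 := h1.length_le
      rw [List.length_append, List.length_singleton] at h3
      omega

theorem stp_prefix {a a' : List Bool} (h : a <+: a') : stp a <+: stp a' := by
  obtain ⟨r, rfl⟩ := h
  induction r using List.reverseRecOn with
  | nil => rw [List.append_nil]
  | append_singleton r b ih =>
    rw [← List.append_assoc, stp_concat]
    exact ih.trans (List.prefix_append _ _)

open Classical in
/-- the step is the first one with its question, which is in `P` -/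
noncomputable def isFst (M : Alg) (x : List Bool) (P : Set (List Bool)) (s : List Bool × Bool) : Bool :=
  decide (nxt M x s.1 ∈ P) && !((stp s.1).any (fun d => decide (nxt M x d.1 = nxt M x s.1)))

/-- the answers in the steps which are the first ones with their questions, for questions in `P` -/
noncomputable def code (M : Alg) (x : List Bool) (P : Set (List Bool)) (a : List Bool) : List Bool :=
  ((stp a).filter (isFst M x P)).map Prod.snd

theorem code_prefix {P : Set (List Bool)} {a a' : List Bool} (h : a <+: a') :
    code M x P a <+: code M x P a' :=
  ((stp_prefix h).filter _).map _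

theorem code_concat {P : Set (List Bool)} {c : List Bool} {b : Bool}
    (h : isFst M x P (c, b) = true) : code M x P (c ++ [b]) = code M x P c ++ [b] := by
  unfold code
  rw [stp_concat, List.filter_append, List.map_append, List.filter_cons, if_pos h]
  rfl

theorem isFst_eq_true {P : Set (List Bool)} {c : List Bool} {b : Bool} :
    isFst M x P (c, b) = true ↔ nxt M x c ∈ P ∧ ∀ d ∈ stp c, nxt M x d.1 ≠ nxt M x c := by
  unfold isFst
  simp only [Bool.and_eq_true, decide_eq_true_eq, Bool.not_eq_true', List.any_eq_false]

theorem answers_step {c : List Bool} {b : Bool} (h : c ++ [b] <+: answers M X x) :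
    asking M x c = true ∧ X (nxt M x c) = b := trace_step _ _ h List.nil_prefix

theorem answers_comparable {a a' : List Bool} (ha : a = answers M X x) (ha' : a' = answers M X' x)
    (h : a <+: a') : a = a' := by
  obtain ⟨r, hr⟩ := h
  rcases r with _ | ⟨b, r⟩
  · rw [← hr, List.append_nil]
  · exfalso
    have h1 : a ++ [b] <+: a' := ⟨r, by rw [← hr]; simp⟩
    rw [ha'] at h1
    have h2 := (answers_step h1).1
    have h3 : a.length < M.p.eval x.length := by
      have h4 := h1.length_le
      have h5 := length_trace (M := M) (X := X') (x := x) (M.p.eval x.length) []
      rw [List.length_append, List.length_singleton] at h4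
      unfold answers at h4
      rw [List.length_nil] at h5
      omega
    have h4 := trace_stop (M := M) (X := X) (x := x) (M.p.eval x.length) [] (by
      unfold answers at ha
      rw [← ha, List.length_nil]
      omega)
    change asking M x (answers M X x) = false at h4
    rw [← ha, h2] at h4
    exact absurd h4 (by simp)

theorem code_inj {P : Set (List Bool)} (hP : ∀ q, q ∉ P → X q = X' q)
    (h : code M x P (answers M X x) = code M x P (answers M X' x)) :
    answers M X x = answers M X' x := by
  rcases split_or (a := answers M X x) (a' := answers M X' x) with h1 | h1 | ⟨c, b, h1, h2⟩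
  · exact answers_comparable rfl rfl h1
  · exact (answers_comparable rfl rfl h1).symm
  · exfalso
    have e1 := (answers_step h1).2
    have e2 := (answers_step h2).2
    have hf : nxt M x c ∈ P ∧ ∀ d ∈ stp c, nxt M x d.1 ≠ nxt M x c := by
      constructor
      · by_contra h3
        have h4 := hP _ h3
        rw [e1, e2] at h4
        cases b <;> simp at h4
      · intro d hd h3
        have h4 : d.1 ++ [d.2] <+: c := mem_stp.1 (by simpa using hd)
        have h5 := (answers_step ((h4.trans (List.prefix_append c [b])).trans h1)).2
        have h6 := (answers_step ((h4.trans (List.prefix_append c [!b])).trans h2)).2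
        rw [h3] at h5 h6
        rw [e1] at h5
        rw [e2, ← h5] at h6
        cases b <;> simp at h6
    have k1 := code_prefix (M := M) (x := x) (P := P) h1
    have k2 := code_prefix (M := M) (x := x) (P := P) h2
    rw [code_concat (isFst_eq_true.2 hf)] at k1 k2
    rw [h] at k1
    have k3 := List.prefix_of_prefix_length_le k1 k2 (by simp)
    have k4 := k3.eq_of_length (by simp)
    have k5 := (List.append_inj' k4 rfl).2
    simp at k5

theorem nodup_fst (P : Set (List Bool)) (a : List Bool) :
    (((stp a).filter (isFst M x P)).map (fun s => nxt M x s.1)).Nodup := by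
  induction a using List.reverseRecOn with
  | nil => simp [stp, pre_nil]
  | append_singleton a b ih =>
    rw [stp_concat, List.filter_append, List.map_append, List.filter_cons]
    split_ifs with h
    · rw [List.nodup_append]
      refine ⟨ih, by simp, ?_⟩
      intro q hq q' hq' he
      simp only [List.filter_nil, List.map_cons, List.map_nil, List.mem_singleton] at hq'
      obtain ⟨s, hs, rfl⟩ := List.mem_map.1 hq
      rw [hq'] at he
      exact (isFst_eq_true.1 h).2 s (List.mem_of_mem_filter hs) he
    · simpa using ih

theorem length_code_le (P : Set (List Bool)) (a : List Bool) :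
    ((code M x P a).length : ℕ∞) ≤ {q | q ∈ qs M x a ∧ q ∈ P}.encard := by
  classical
  have h1 : (code M x P a).length =
      ((((stp a).filter (isFst M x P)).map (fun s => nxt M x s.1)).toFinset).card := by
    rw [List.toFinset_card_of_nodup (nodup_fst P a)]
    unfold code
    rw [List.length_map, List.length_map]
  rw [h1, ← Set.encard_coe_eq_coe_finsetCard]
  refine Set.encard_le_encard ?_
  intro q hq
  rw [Finset.mem_coe, List.mem_toFinset] at hq
  obtain ⟨s, hs, rfl⟩ := List.mem_map.1 hq
  rw [List.mem_filter] at hs
  refine ⟨?_, ?_⟩
  · have h2 := (List.of_mem_zip (show (s.1, s.2) ∈ (pre a).zip a from hs.1)).1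
    exact List.mem_map.2 ⟨_, h2, rfl⟩
  · exact (isFst_eq_true (b := s.2) |>.1 (by simpa using hs.2)).1

theorem encard_length_le (k : ℕ) : {l : List Bool | l.length ≤ k}.encard + 1 ≤ (2 ^ (k + 1) : ℕ) := by
  induction k with
  | zero =>
    have h : {l : List Bool | l.length ≤ 0} = {[]} := by
      ext l
      simp
    rw [h, Set.encard_singleton]
    norm_num
  | succ k ih =>
    have h : {l : List Bool | l.length ≤ k + 1} ⊆ ({[]} ∪
        (List.cons true) '' {l : List Bool | l.length ≤ k}) ∪
        (List.cons false) '' {l : List Bool | l.length ≤ k} := by
      intro l hl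
      rcases l with _ | ⟨b, l⟩
      · simp
      · have h1 : l.length ≤ k := by
          have h2 : (b :: l).length ≤ k + 1 := hl
          rw [List.length_cons] at h2
          omega
        cases b
        · exact Or.inr ⟨l, h1, rfl⟩
        · exact Or.inl (Or.inr ⟨l, h1, rfl⟩)
    have h1 := (Set.encard_le_encard h).trans ((Set.encard_union_le _ _).trans
      (add_le_add_left (Set.encard_union_le _ _) _))
    have h2 := Set.encard_image_le (List.cons true) {l : List Bool | l.length ≤ k}
    have h3 := Set.encard_image_le (List.cons false) {l : List Bool | l.length ≤ k}
    rw [Set.encard_singleton] at h1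
    generalize {l : List Bool | l.length ≤ k}.encard = u at *
    have h4 : {l : List Bool | l.length ≤ k + 1}.encard ≤ 1 + u + u :=
      h1.trans (add_le_add (add_le_add_right h2 _) h3)
    calc {l : List Bool | l.length ≤ k + 1}.encard + 1 ≤ 1 + u + u + 1 := add_le_add_left h4 _
      _ = (u + 1) + (u + 1) := by ring
      _ ≤ (2 ^ (k + 1) : ℕ) + (2 ^ (k + 1) : ℕ) := add_le_add ih ih
      _ = (2 ^ (k + 1 + 1) : ℕ) := by
        rw [← Nat.cast_add, pow_succ 2 (k + 1), mul_two]

end Pool.Agent.J4H63.EY
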