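import Pool.Agent.J4H63.EY.Size
import Pool.Agent.J4H63.EY.Cnt

/-!
# One reduction for all separators, and the equivalences
-/

namespace Pool.Agent.J4H63.EY

open Pool.Agent.NPC Pool.Agent.H628R3.RO Pool.Agent.J4H63.ESY Pool.Agent.J4H63.GO

theorem few_of_log {B : Oracle} {L₀ L₁ : Set (List Bool)} {M : Alg} (h : LogOutside B L₀ L₁ M) :
    FewComputations B L₀ L₁ M := by
  classical
  obtain ⟨c, hc⟩ := h
  refine ⟨2 * (Polynomial.X + 2) ^ c, fun x => ?_⟩
  set P : Set (List Bool) := {q | ∃ t, q = false :: t ∧ t ∉ L₀ ∧ t ∉ L₁} with hP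
  set A : Set (List Bool) := {a | ∃ T : Oracle, Separates T L₀ L₁ ∧ answers M (join T B) x = a}
    with hA
  set k : ℕ := c * Nat.log 2 (x.length + 2) with hk
  have h1 : Set.InjOn (code M x P) A := by
    rintro a ⟨T, hT, rfl⟩ a' ⟨T', hT', rfl⟩ h
    refine code_inj (P := P) (fun q hq => ?_) h
    rcases q with _ | ⟨b, t⟩
    · rfl
    · cases b with
      | true => rfl
      | false =>
        have h2 : t ∈ L₀ ∨ t ∈ L₁ := by
          by_contra h3
          rw [not_or] at h3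
          exact hq ⟨t, rfl, h3.1, h3.2⟩
        change T t = T' t
        rcases h2 with h2 | h2
        · rw [hT.1 t h2, hT'.1 t h2]
        · rw [hT.2 t h2, hT'.2 t h2]
  have h2 : Set.MapsTo (code M x P) A {l : List Bool | l.length ≤ k} := by
    rintro a ⟨T, hT, rfl⟩
    have h3 := length_code_le (M := M) (x := x) P (answers M (join T B) x)
    have h4 := hc x T hT
    have h5 : {q | q ∈ qs M x (answers M (join T B) x) ∧ q ∈ P} = (fun t => false :: t) ''
        {t | t ∉ L₀ ∧ t ∉ L₁ ∧ (false :: t) ∈ qs M x (answers M (join T B) x)} := by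
      ext q
      simp only [Set.mem_ofPred_eq, Set.mem_image, hP]
      constructor
      · rintro ⟨h6, t, rfl, h7, h8⟩
        exact ⟨t, ⟨h7, h8, h6⟩, rfl⟩
      · rintro ⟨t, ⟨h7, h8, h6⟩, rfl⟩
        exact ⟨h6, t, rfl, h7, h8⟩
    rw [h5] at h3
    have h6 := h3.trans ((Set.encard_image_le _ _).trans h4)
    exact_mod_cast h6
  have h3 := (Set.encard_le_encard_of_injOn h2 h1)
  have h4 := encard_length_le k
  have h5 : A.encard ≤ (2 ^ (k + 1) : ℕ) := h3.trans (le_self_add.trans h4)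
  refine h5.trans ?_
  have h6 : 2 ^ (k + 1) ≤ 2 * (x.length + 2) ^ c := by
    rw [hk, pow_succ, mul_comm, mul_comm c, pow_mul]
    exact Nat.mul_le_mul_left _ (Nat.pow_le_pow_left (Nat.pow_log_le_self 2 (by omega)) c)
  simp only [Polynomial.eval_mul, Polynomial.eval_pow, Polynomial.eval_add, Polynomial.eval_X,
    Polynomial.eval_ofNat]
  exact_mod_cast h6

theorem FewComputations.mono {B : Oracle} {L₀ L₁ L₀' L₁' : Set (List Bool)} {M : Alg}
    (h : FewComputations B L₀ L₁ M) (h0 : L₀ ⊆ L₀') (h1 : L₁ ⊆ L₁') :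
    FewComputations B L₀' L₁' M := by
  obtain ⟨q, hq⟩ := h
  refine ⟨q, fun x => le_trans (Set.encard_le_encard ?_) (hq x)⟩
  rintro a ⟨T, hT, h2⟩
  exact ⟨T, ⟨fun t ht => hT.1 t (h0 ht), fun t ht => hT.2 t (h1 ht)⟩, h2⟩

/-- adding finitely many strings to a set in `NP` -/
theorem isNP_add {B : Oracle} {L : Set (List Bool)} (h : IsNP B L) (F : List (List Bool)) :
    IsNP B {x | x ∈ L ∨ x ∈ F} := by
  obtain ⟨V, p, hV, h⟩ := h
  refine ⟨fun y => if (unpair y).1 ∈ F then [true] else V y, p, ?_, fun x => ?_⟩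
  · have h1 : Poly (fun z : List Bool => if (unpair (unpair z).1).1 ∈ F then [true] else
        (unpair z).2) := by
      have h2 : Poly (fun z : List Bool => (unpair (unpair z).1).1) :=
        Poly.fst (poly_unpair.comp (Poly.fst poly_unpair))
      refine Poly.ite (p := fun z : List Bool => (unpair (unpair z).1).1 ∈ F)
        ((Poly.decide_mem h2 (NPC.Poly.const F)).congr fun a => decide_eq_decide.2 Iff.rfl)
        (NPC.Poly.const _) (Poly.snd poly_unpair)
    have h3 := IsFP.comp (IsFP.of_poly (A := B) h1) (IsFP.pair (IsFP.of_poly (A := B) Poly.id) hV)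
    refine (congrArg (IsFP B) ?_).mp h3
    funext y
    simp only [unpair_pairBits]
  · simp only [Set.mem_ofPred_eq, unpair_pairBits]
    constructor
    · rintro (h1 | h1)
      · obtain ⟨w, h2, h3⟩ := (h x).1 h1
        refine ⟨w, h2, ?_⟩
        split_ifs
        · rfl
        · exact h3
      · exact ⟨[], by simp, by rw [if_pos h1]⟩
    · rintro ⟨w, h2, h3⟩
      by_cases h4 : x ∈ F
      · exact Or.inr h4
      · rw [if_neg h4] at h3
        exact Or.inl ((h x).2 ⟨w, h2, h3⟩)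

open Classical in
/-- the separator with the given values outside the promise -/
noncomputable def sepOf (L₀ L₁ : Set (List Bool)) (A : Oracle) : Oracle :=
  fun t => if t ∈ L₀ then true else if t ∈ L₁ then false else A t

theorem separates_sepOf {L₀ L₁ : Set (List Bool)} (hd : ∀ x, ¬ (x ∈ L₀ ∧ x ∈ L₁)) (A : Oracle) :
    Separates (sepOf L₀ L₁ A) L₀ L₁ := by
  refine ⟨fun t ht => ?_, fun t ht => ?_⟩
  · unfold sepOf
    rw [if_pos ht]
  · unfold sepOf
    rw [if_neg (fun h => hd t ⟨h, ht⟩), if_pos ht]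

theorem isClosed_decides (M : Alg) (B : Oracle) (L L₀ L₁ : Set (List Bool)) :
    IsClosed {A | Decides M (sepOf L₀ L₁ A) B L} := by
  obtain ⟨qb, h⟩ := out_join_congr M B
  refine isClosed_forall (R := fun x A => ∃ z, M.out (join (sepOf L₀ L₁ A) B) x = some z ∧
    (x ∈ L ↔ z = [true])) fun w => ⟨qb.eval w.length, loc_of_imp fun A A' hA hR => ?_⟩
  obtain ⟨z, h1, h2⟩ := hR
  refine ⟨z, ?_, h2⟩
  rw [← h (sepOf L₀ L₁ A) (sepOf L₀ L₁ A') w w.length le_rfl fun t ht => ?_]
  · exact h1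
  · unfold sepOf
    rw [hA t ht]

/-- from one reduction for each separator to one reduction for all separators of a larger pair -/
theorem uniform {B : Oracle} {L L₀ L₁ : Set (List Bool)} (hp : IsPair (IsNP B) L₀ L₁)
    {Good : Alg → Prop} (h : ∀ T, Separates T L₀ L₁ → ∃ M, Good M ∧ Decides M T B L) :
    ∃ L₀' L₁', IsPair (IsNP B) L₀' L₁' ∧ L₀ ⊆ L₀' ∧ L₁ ⊆ L₁' ∧
      ∃ M, Good M ∧ ∀ T, Separates T L₀' L₁' → Decides M T B L := by
  classical
  obtain ⟨h0, h1, hd⟩ := hp
  have hU : ⋃ M : {M : Alg // Good M}, {A | Decides M.1 (sepOf L₀ L₁ A) B L} = Set.univ := by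
    rw [Set.eq_univ_iff_forall]
    intro A
    obtain ⟨M, hM, hM'⟩ := h _ (separates_sepOf hd A)
    exact Set.mem_iUnion.2 ⟨⟨M, hM⟩, hM'⟩
  obtain ⟨⟨M, hM⟩, G, hG⟩ := nonempty_interior_of_iUnion_of_closed
    (fun M : {M : Alg // Good M} => isClosed_decides M.1 B L L₀ L₁) hU
  obtain ⟨σ, hσ, hσ'⟩ := exists_facts isOpen_interior hG
  set F₀ : List (List Bool) := (σ.map Prod.fst).filter (fun t => decide (t ∉ L₁ ∧ G t = true))
    with hF₀
  set F₁ : List (List Bool) := (σ.map Prod.fst).filter (fun t => decide (t ∉ L₀ ∧ G t = false))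
    with hF₁
  have m0 : ∀ t, t ∈ F₀ ↔ t ∈ σ.map Prod.fst ∧ t ∉ L₁ ∧ G t = true := by
    intro t
    rw [hF₀, List.mem_filter, decide_eq_true_eq]
  have m1 : ∀ t, t ∈ F₁ ↔ t ∈ σ.map Prod.fst ∧ t ∉ L₀ ∧ G t = false := by
    intro t
    rw [hF₁, List.mem_filter, decide_eq_true_eq]
  refine ⟨{x | x ∈ L₀ ∨ x ∈ F₀}, {x | x ∈ L₁ ∨ x ∈ F₁}, ⟨isNP_add h0 F₀, isNP_add h1 F₁, ?_⟩,
    fun t ht => Or.inl ht, fun t ht => Or.inl ht, M, hM, fun T hT => ?_⟩
  · rintro t ⟨h2 | h2, h3 | h3⟩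
    · exact hd t ⟨h2, h3⟩
    · exact ((m1 t).1 h3).2.1 h2
    · exact ((m0 t).1 h2).2.1 h3
    · have h4 := ((m0 t).1 h2).2.2
      rw [((m1 t).1 h3).2.2] at h4
      exact absurd h4 (by simp)
  · set A : Oracle := fun t => if t ∈ σ.map Prod.fst then G t else T t with hA
    have h2 : Sat σ A := by
      intro f hf
      rw [hA]
      simp only
      rw [if_pos (List.mem_map.2 ⟨f, hf, rfl⟩)]
      exact hσ f hf
    have h3 : sepOf L₀ L₁ A = T := by
      funext t
      unfold sepOf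
      by_cases h4 : t ∈ L₀
      · rw [if_pos h4]
        exact (hT.1 t (Or.inl h4)).symm
      · rw [if_neg h4]
        by_cases h5 : t ∈ L₁
        · rw [if_pos h5]
          exact (hT.2 t (Or.inl h5)).symm
        · rw [if_neg h5, hA]
          simp only
          by_cases h6 : t ∈ σ.map Prod.fst
          · rw [if_pos h6]
            cases h7 : G t with
            | true => exact (hT.1 t (Or.inr ((m0 t).2 ⟨h6, h5, h7⟩))).symm
            | false => exact (hT.2 t (Or.inr ((m1 t).2 ⟨h6, h4, h7⟩))).symm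
          · rw [if_neg h6]
    have h4 : A ∈ {A | Decides M (sepOf L₀ L₁ A) B L} := interior_subset (hσ' A h2)
    have h5 : Decides M (sepOf L₀ L₁ A) B L := h4
    rw [h3] at h5
    exact h5

theorem exists_acc {B : Oracle} {L : Set (List Bool)} (h : IsNP B L) :
    ∃ (V : Alg) (p : Polynomial ℕ), L = {t | Acc V p B t} := by
  obtain ⟨W, p, ⟨V, hV⟩, h⟩ := h
  refine ⟨V, p, ?_⟩
  ext x
  rw [h x]
  unfold ESY.Acc
  simp only [Set.mem_ofPred_eq, hV, Option.some.injEq]

theorem conp_of_few {B : Oracle} {L L₀ L₁ : Set (List Bool)} (hp : IsPair (IsNP B) L₀ L₁)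
    (h : ∀ T, Separates T L₀ L₁ → ∃ M, FewComputations B L₀ L₁ M ∧ Decides M T B L) :
    IsNP B L ∧ IsCoNP B L := by
  obtain ⟨K₀, K₁, hK, s0, s1, M, hM, hM'⟩ := uniform hp h
  obtain ⟨q, hq⟩ := hM.mono s0 s1
  obtain ⟨V₀, p₀, rfl⟩ := exists_acc hK.1
  obtain ⟨V₁, p₁, rfl⟩ := exists_acc hK.2.1
  have key := isNP_of_few (L := L) hK.2.2 (fun x T hT => hM' T hT x) hq
  refine ⟨?_, ?_⟩
  · have h1 := key true
    refine (congrArg (IsNP B) ?_).mp h1
    ext x
    simp
  · have h1 := key false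
    refine (congrArg (IsNP B) ?_).mp h1
    ext x
    simp

end Pool.Agent.J4H63.EY
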