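import Pool.Agent.J4H63.GO.Tr
import Pool.Agent.J4H63.ESY.Defs

/-!
# Definitions: the computations of a reduction to a promise problem

`Alg` and `Alg.out` are in `Pool/Agent/H628R3/RO/Defs.lean`; `qs M x a` (in
`Pool/Agent/J4H63/GO/Tr.lean`) is the list of the questions which `M` asks on input `x` when it
receives the answers `a`; `join` and `Separates` are in `Pool/Agent/J4H63/ESY/Defs.lean`.
-/

namespace Pool.Agent.J4H63.EY

open Pool.Agent.NPC Pool.Agent.H628R3.RO Pool.Agent.J4H63.ESY Pool.Agent.J4H63.GO

/-- The sequence of the answers which the algorithm `M` with oracle `A` receives on input `x`, within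
`n` further rounds, when the answers received so far are `a`. -/
def trace (M : Alg) (A : Oracle) (x : List Bool) : ℕ → List Bool → List Bool
  | 0, a => a
  | n + 1, a =>
    match M.D (pairBits x a) with
    | [] => a
    | true :: _ => a
    | false :: q => trace M A x n (a ++ [A q])

/-- The sequence of the answers in the computation of `M` with oracle `A` on input `x`; it
determines the computation. -/
def answers (M : Alg) (A : Oracle) (x : List Bool) : List Bool := trace M A x (M.p.eval x.length) []

/-- For the separators `T` of `(L₀, L₁)` the algorithm `M`, with the oracles `T` and `B`, has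
altogether only polynomially many different computations on an input (the computation is given by
the sequence of the answers which are received). -/
def FewComputations (B : Oracle) (L₀ L₁ : Set (List Bool)) (M : Alg) : Prop :=
  ∃ q : Polynomial ℕ, ∀ x : List Bool,
    {a | ∃ T : Oracle, Separates T L₀ L₁ ∧ answers M (join T B) x = a}.encard ≤ q.eval x.length

/-- With every separator `T` of `(L₀, L₁)` and with `B`, the algorithm `M` asks `T` at most
`c log₂ (|x| + 2)` different questions outside `L₀ ∪ L₁` on input `x`; all other questions are
free. -/
def LogOutside (B : Oracle) (L₀ L₁ : Set (List Bool)) (M : Alg) : Prop :=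
  ∃ c : ℕ, ∀ (x : List Bool) (T : Oracle), Separates T L₀ L₁ →
    {t | t ∉ L₀ ∧ t ∉ L₁ ∧ (false :: t) ∈ qs M x (answers M (join T B) x)}.encard ≤
      (c * Nat.log 2 (x.length + 2) : ℕ)

/-- With the oracles `T` and `B`, the algorithm `M` decides `L`. -/
def Decides (M : Alg) (T B : Oracle) (L : Set (List Bool)) : Prop :=
  ∀ x, ∃ z, M.out (join T B) x = some z ∧ (x ∈ L ↔ z = [true])

end Pool.Agent.J4H63.EY
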