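import Pool.Agent.J4H63.EY.Trace

/-!
# Certificates for reductions with few computations
-/

namespace Pool.Agent.J4H63.EY

open Pool.Agent.NPC Pool.Agent.H628R3.RO Pool.Agent.J4H63.ESY Pool.Agent.J4H63.GO

/-- a certified answer: the question, the answer, the witness, the answers in the verification -/
abbrev Kap : Type := (List Bool × Bool) × (List Bool × List Bool)

/-- the verification with the given answers accepts -/
def okV (V : Alg) (p : Polynomial ℕ) (t w v : List Bool) : Bool :=
  decide (w.length ≤ p.eval t.length) && (valid V (pairBits t w) v &&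
    decide (nxt V (pairBits t w) v = [true]))

/-- the certified answer is verified -/
def okK (V₀ : Alg) (p₀ : Polynomial ℕ) (V₁ : Alg) (p₁ : Polynomial ℕ) (κ : Kap) : Bool :=
  if κ.1.2 = true then okV V₀ p₀ κ.1.1 κ.2.1 κ.2.2 else okV V₁ p₁ κ.1.1 κ.2.1 κ.2.2

/-- the facts used in the verification -/
def factsK (V₀ V₁ : Alg) (κ : Kap) : List (List Bool × Bool) :=
  if κ.1.2 = true then (qs V₀ (pairBits κ.1.1 κ.2.1) κ.2.2).zip κ.2.2
  else (qs V₁ (pairBits κ.1.1 κ.2.1) κ.2.2).zip κ.2.2

/-- the facts about the base oracle in the computation -/
def factsT (M : Alg) (x a : List Bool) : List (List Bool × Bool) :=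
  ((qs M x a).zip a).flatMap (fun t => if t.1.head? = some true then [(t.1.tail, t.2)] else [])

/-- a step is certified, or repeats an answer, or the other answer occurs as well -/
def okS (M : Alg) (x : List Bool) (W : List (List Bool)) (K : List Kap) (s : List Bool × Bool) : Bool :=
  if (nxt M x s.1).head? = some true then true else
    if (nxt M x s.1).head? = some false then
      K.any (fun κ => decide (κ.1 = ((nxt M x s.1).tail, s.2))) ||
      ((stp s.1).any (fun d => decide (nxt M x d.1 = nxt M x s.1) && decide (d.2 = s.2)) ||
        W.any (fun a' => decide (s.1 ++ [!s.2] ∈ pre a' ++ [a'])))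
    else !s.2

/-- the check of one computation -/
def okA (M : Alg) (acc : Bool) (x : List Bool) (W : List (List Bool)) (K : List Kap)
    (a : List Bool) : Bool :=
  valid M x a && (decide (decide (nxt M x a = [true]) = acc) && (stp a).all (okS M x W K))

/-- the check -/
def chk (M V₀ : Alg) (p₀ : Polynomial ℕ) (V₁ : Alg) (p₁ : Polynomial ℕ) (acc : Bool) (x : List Bool)
    (C : List (List Bool) × List Kap) : Bool :=
  !(C.1.isEmpty) && (C.1.all (okA M acc x C.1 C.2) && C.2.all (okK V₀ p₀ V₁ p₁))

/-- all facts -/
def fcts (M V₀ V₁ : Alg) (x : List Bool) (C : List (List Bool) × List Kap) :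
    List (List Bool × Bool) :=
  C.1.flatMap (factsT M x) ++ C.2.flatMap (factsK V₀ V₁)

/-! ## Soundness -/

variable {M V₀ V₁ : Alg} {p₀ p₁ : Polynomial ℕ} {B : Oracle}

theorem okV_sound {V : Alg} {p : Polynomial ℕ} {t w v : List Bool} (h : okV V p t w v = true)
    (hf : ∀ f ∈ (qs V (pairBits t w) v).zip v, B f.1 = f.2) : Acc V p B t := by
  simp only [okV, Bool.and_eq_true, decide_eq_true_eq] at h
  obtain ⟨h1, h2, h3⟩ := h
  have h4 : (qs V (pairBits t w) v).map B = v := by
    have h5 : (qs V (pairBits t w) v).length = v.length := length_qs _ _ _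
    apply List.ext_getElem
    · rw [List.length_map, h5]
    · intro i hi hi'
      have hi2 : i < (qs V (pairBits t w) v).length := by rw [h5]; exact hi'
      rw [List.getElem_map]
      refine hf ((qs V (pairBits t w) v)[i], v[i]) ?_
      rw [List.mem_iff_getElem]
      exact ⟨i, by rw [List.length_zip, h5, Nat.min_self]; exact hi', by rw [List.getElem_zip]⟩
  have h5 := out_of_transcript h2 h4
  rw [h3] at h5
  exact ⟨w, h1, h5⟩

theorem sound {acc : Bool} {x : List Bool} {C : List (List Bool) × List Kap}
    (hc : chk M V₀ p₀ V₁ p₁ acc x C = true) (hf : ∀ f ∈ fcts M V₀ V₁ x C, B f.1 = f.2)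
    {T : Oracle} (hT0 : ∀ t, Acc V₀ p₀ B t → T t = true) (hT1 : ∀ t, Acc V₁ p₁ B t → T t = false)
    {z : List Bool} (hz : M.out (join T B) x = some z) : z = [true] ↔ acc = true := by
  simp only [chk, Bool.and_eq_true, Bool.not_eq_true', List.isEmpty_eq_false_iff, List.all_eq_true] at hc
  obtain ⟨hne, hA, hK⟩ := hc
  obtain ⟨g1, g2, g3, -⟩ := answers_spec hz
  set a₀ := answers M (join T B) x with ha₀
  have hK' : ∀ κ ∈ C.2, T κ.1.1 = κ.1.2 := by
    intro κ hκ
    have h1 := hK κ hκ
    have h2 : ∀ f ∈ factsK V₀ V₁ κ, B f.1 = f.2 := fun f hf' =>
      hf f (List.mem_append_right _ (List.mem_flatMap.2 ⟨κ, hκ, hf'⟩))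
    unfold okK at h1
    unfold factsK at h2
    by_cases hb : κ.1.2 = true
    · rw [if_pos hb] at h1 h2
      rw [hb]
      exact hT0 _ (okV_sound h1 h2)
    · rw [if_neg hb] at h1 h2
      rw [hT1 _ (okV_sound h1 h2)]
      simpa using hb
  have key : ∀ k ≤ a₀.length, ∃ a ∈ C.1, a₀.take k <+: a := by
    intro k
    induction k with
    | zero =>
      intro _
      obtain ⟨a, ha⟩ := List.exists_mem_of_ne_nil _ hne
      exact ⟨a, ha, by simp⟩
    | succ k ih =>
      intro hk
      obtain ⟨a, ha, hp⟩ := ih (by omega)
      have hk' : k < a₀.length := by omega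
      set c := a₀.take k with hcdef
      have hc1 : c ++ [a₀[k]] <+: a₀ := by
        rw [hcdef, ← List.take_succ_eq_append_getElem hk']
        exact List.take_prefix _ _
      have hask : asking M x c = true := (valid_spec g1).1 c _ hc1
      have hAa := hA a ha
      simp only [okA, Bool.and_eq_true, List.all_eq_true] at hAa
      obtain ⟨hv, -, hs⟩ := hAa
      -- the next answer of `a`
      obtain ⟨r, hr⟩ := hp
      rcases r with _ | ⟨b, r⟩
      · exfalso
        rw [List.append_nil] at hr
        have h1 := (valid_spec hv).2
        rw [← hr, hask] at h1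
        exact absurd h1 (by simp)
      have hcb : c ++ [b] <+: a := ⟨r, by rw [← hr]; simp⟩
      by_cases hb : b = a₀[k]
      · refine ⟨a, ha, ?_⟩
        rw [List.take_succ_eq_append_getElem hk', ← hcdef, ← hb]
        exact hcb
      have hXb : join T B (nxt M x c) = a₀[k] := map_spec g2 hc1
      have hst := hs (c, b) (mem_stp.2 hcb)
      unfold okS at hst
      simp only at hst
      rcases hq : nxt M x c with _ | ⟨d, t⟩
      · rw [hq] at hst hXb
        simp only [List.head?_nil, reduceCtorEq, if_false, Bool.not_eq_true'] at hst
        exact absurd (hst.trans (by rw [← hXb]; rfl)) hb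
      · cases d with
        | true =>
          exfalso
          apply hb
          rw [hq] at hXb
          rw [← hXb]
          change b = B t
          have h3 : (true :: t, b) ∈ (qs M x a).zip a := by
            have h4 : (nxt M x c, b) ∈ ((stp a).map (fun s => (nxt M x s.1, s.2))) :=
              List.mem_map.2 ⟨(c, b), mem_stp.2 hcb, rfl⟩
            have h5 : (stp a).map (fun s => (nxt M x s.1, s.2)) = (qs M x a).zip a := by
              unfold stp qs
              rw [List.zip_map_left]
              rfl
            rw [h5, hq] at h4
            exact h4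
          refine (hf (t, b) (List.mem_append_left _ (List.mem_flatMap.2 ⟨a, ha, ?_⟩))).symm
          exact List.mem_flatMap.2 ⟨_, h3, by simp⟩
        | false =>
          rw [hq] at hst hXb
          simp only [List.head?_cons, Option.some.injEq, Bool.false_eq_true, if_false, if_true, reduceIte,
            List.tail_cons, Bool.or_eq_true, List.any_eq_true, decide_eq_true_eq, Bool.and_eq_true] at hst
          rcases hst with ⟨κ, hκ, h5⟩ | ⟨d, hd, h5, h6⟩ | ⟨a', ha', h5⟩
          · exfalso
            apply hb
            have h6 := hK' κ hκ
            rw [h5] at h6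
            rw [← hXb]
            exact h6.symm
          · exfalso
            apply hb
            have h7 : d.1 ++ [d.2] <+: c := mem_stp.1 (by simpa using hd)
            have h8 : d.1 ++ [d.2] <+: a₀ := h7.trans (by rw [hcdef]; exact List.take_prefix _ _)
            have h9 := map_spec g2 h8
            rw [h5, hXb] at h9
            rw [h9, h6]
          · refine ⟨a', ha', ?_⟩
            rw [List.take_succ_eq_append_getElem hk', ← hcdef]
            have h6 : a₀[k] = !b := by
              cases b <;> cases h' : a₀[k] <;> simp_all
            rw [h6]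
            exact mem_pre.1 h5
  obtain ⟨a, ha, hp⟩ := key a₀.length le_rfl
  rw [List.take_length] at hp
  have hAa := hA a ha
  simp only [okA, Bool.and_eq_true, decide_eq_true_eq] at hAa
  have h1 : a₀ = a := eq_of_prefix (valid_spec g1).2 hAa.1 hp
  rw [← g3, h1]
  have h2 := hAa.2.1
  rw [← h2]
  simp

/-! ## Completeness -/

theorem mem_zip_stp {M : Alg} {x a : List Bool} {f : List Bool × Bool} :
    f ∈ (qs M x a).zip a ↔ ∃ s ∈ stp a, (nxt M x s.1, s.2) = f := by
  have h5 : (stp a).map (fun s => (nxt M x s.1, s.2)) = (qs M x a).zip a := by
    unfold stp qs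
    rw [List.zip_map_left]
    rfl
  rw [← h5, List.mem_map]

theorem zip_true {M : Alg} {X : Oracle} {x a : List Bool} (h : (qs M x a).map X = a)
    {f : List Bool × Bool} (hf : f ∈ (qs M x a).zip a) : X f.1 = f.2 := by
  obtain ⟨s, hs, rfl⟩ := mem_zip_stp.1 hf
  exact map_spec h (mem_stp.1 (by simpa using hs))

open Classical in
/-- the certified answer -/
noncomputable def kap (V : Alg) (p : Polynomial ℕ) (B : Oracle) (t : List Bool) (b : Bool) : Kap :=
  if h : Acc V p B t then ((t, b), (h.choose, answers V B (pairBits t h.choose))) else ((t, b), ([], []))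

theorem kap_spec {V : Alg} {p : Polynomial ℕ} {B : Oracle} {t : List Bool} (b : Bool)
    (h : Acc V p B t) : ∃ w v, kap V p B t b = ((t, b), (w, v)) ∧ okV V p t w v = true ∧
      (∀ f ∈ (qs V (pairBits t w) v).zip v, B f.1 = f.2) ∧ w.length ≤ p.eval t.length ∧
      v.length < V.p.eval (pairBits t w).length := by
  refine ⟨h.choose, answers V B (pairBits t h.choose), by rw [kap, dif_pos h], ?_, ?_,
    h.choose_spec.1, ?_⟩
  · obtain ⟨g1, g2, g3, g4⟩ := answers_spec h.choose_spec.2
    simp only [okV, Bool.and_eq_true, decide_eq_true_eq]
    exact ⟨h.choose_spec.1, g1, g3⟩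
  · obtain ⟨g1, g2, g3, g4⟩ := answers_spec h.choose_spec.2
    exact fun f hf => zip_true g2 hf
  · exact (answers_spec h.choose_spec.2).2.2.2

open Classical in
/-- the certified answers of one computation -/
noncomputable def kaps (M V₀ : Alg) (p₀ : Polynomial ℕ) (V₁ : Alg) (p₁ : Polynomial ℕ) (B : Oracle)
    (x a : List Bool) : List Kap :=
  (stp a).flatMap (fun s =>
    if (nxt M x s.1).head? = some false ∧ s.2 = true ∧ Acc V₀ p₀ B (nxt M x s.1).tail then
      [kap V₀ p₀ B (nxt M x s.1).tail true] else
    if (nxt M x s.1).head? = some false ∧ s.2 = false ∧ Acc V₁ p₁ B (nxt M x s.1).tail then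
      [kap V₁ p₁ B (nxt M x s.1).tail false] else [])

theorem mem_kaps {x a : List Bool} {κ : Kap} : κ ∈ kaps M V₀ p₀ V₁ p₁ B x a ↔ ∃ c b, c ++ [b] <+: a ∧
    (nxt M x c).head? = some false ∧ ((b = true ∧ Acc V₀ p₀ B (nxt M x c).tail ∧
      κ = kap V₀ p₀ B (nxt M x c).tail true) ∨ (b = false ∧ Acc V₁ p₁ B (nxt M x c).tail ∧
      κ = kap V₁ p₁ B (nxt M x c).tail false)) := by
  unfold kaps
  rw [List.mem_flatMap]
  constructor
  · rintro ⟨⟨c, b⟩, hs, h⟩
    refine ⟨c, b, mem_stp.1 hs, ?_⟩
    simp only at h
    split_ifs at h with h1 h2
    · exact ⟨h1.1, Or.inl ⟨h1.2.1, h1.2.2, by simpa using h⟩⟩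
    · exact ⟨h2.1, Or.inr ⟨h2.2.1, h2.2.2, by simpa using h⟩⟩
    · simp at h
  · rintro ⟨c, b, hs, h0, ⟨h1, h2, h3⟩ | ⟨h1, h2, h3⟩⟩
    · exact ⟨(c, b), mem_stp.2 hs, by simp only; rw [if_pos ⟨h0, h1, h2⟩, h3]; simp⟩
    · refine ⟨(c, b), mem_stp.2 hs, ?_⟩
      simp only
      rw [if_neg (by rw [h1]; simp), if_pos ⟨h0, h1, h2⟩, h3]
      simp

theorem complete {acc : Bool} {x : List Bool}
    (hd : ∀ t, ¬ (Acc V₀ p₀ B t ∧ Acc V₁ p₁ B t))
    (hz : ∀ T : Oracle, Separates T {t | Acc V₀ p₀ B t} {t | Acc V₁ p₁ B t} →
      ∃ z, M.out (join T B) x = some z ∧ (z = [true] ↔ acc = true))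
    {W : List (List Bool)} (hW : ∀ a, a ∈ W ↔ ∃ T : Oracle,
      Separates T {t | Acc V₀ p₀ B t} {t | Acc V₁ p₁ B t} ∧ a = answers M (join T B) x) :
    chk M V₀ p₀ V₁ p₁ acc x (W, W.flatMap (kaps M V₀ p₀ V₁ p₁ B x)) = true ∧
      ∀ f ∈ fcts M V₀ V₁ x (W, W.flatMap (kaps M V₀ p₀ V₁ p₁ B x)), B f.1 = f.2 := by
  classical
  constructor
  · simp only [chk, Bool.and_eq_true, Bool.not_eq_true', List.isEmpty_eq_false_iff, List.all_eq_true]
    refine ⟨?_, ?_, ?_⟩
    · intro h
      have h1 := (hW _).2 ⟨fun t => decide (Acc V₀ p₀ B t), ⟨fun t ht => by simpa using ht,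
        fun t ht => by simpa using fun h => hd t ⟨h, ht⟩⟩, rfl⟩
      rw [h] at h1
      simp at h1
    · intro a ha
      obtain ⟨T, hT, rfl⟩ := (hW a).1 ha
      obtain ⟨z, hz1, hz2⟩ := hz T hT
      obtain ⟨g1, g2, g3, g4⟩ := answers_spec hz1
      simp only [okA, Bool.and_eq_true, decide_eq_true_eq, List.all_eq_true]
      refine ⟨g1, ?_, ?_⟩
      · rw [g3]
        cases acc <;> simp_all
      · rintro ⟨c, b⟩ hs
        have hcb := mem_stp.1 hs
        have hX := map_spec g2 hcb
        unfold okS
        simp only
        rcases hq : nxt M x c with _ | ⟨d, t⟩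
        · rw [hq] at hX
          simp only [List.head?_nil, reduceCtorEq, if_false, Bool.not_eq_true']
          exact hX.symm
        · cases d with
          | true => simp
          | false =>
            rw [hq] at hX
            have hX' : T t = b := hX
            simp only [List.head?_cons, Option.some.injEq, Bool.false_eq_true, if_false, reduceIte,
              List.tail_cons, Bool.or_eq_true, List.any_eq_true, decide_eq_true_eq, Bool.and_eq_true]
            by_cases h0 : Acc V₀ p₀ B t
            · left
              have hb : b = true := by rw [← hX', hT.1 t h0]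
              refine ⟨kap V₀ p₀ B t true, List.mem_flatMap.2 ⟨_, ha, mem_kaps.2 ⟨c, b, hcb, by rw [hq]; rfl,
                Or.inl ⟨hb, by rw [hq]; exact h0, by rw [hq]; rfl⟩⟩⟩, ?_⟩
              obtain ⟨w, v, h1, -⟩ := kap_spec true h0
              rw [h1, hb]
            · by_cases h1 : Acc V₁ p₁ B t
              · left
                have hb : b = false := by rw [← hX', hT.2 t h1]
                refine ⟨kap V₁ p₁ B t false, List.mem_flatMap.2 ⟨_, ha, mem_kaps.2 ⟨c, b, hcb, by rw [hq]; rfl,
                  Or.inr ⟨hb, by rw [hq]; exact h1, by rw [hq]; rfl⟩⟩⟩, ?_⟩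
                obtain ⟨w, v, h2, -⟩ := kap_spec false h1
                rw [h2, hb]
              · right
                by_cases hr : ∃ d ∈ stp c, nxt M x d.1 = false :: t
                · left
                  obtain ⟨d, hd1, hd2⟩ := hr
                  refine ⟨d, hd1, hd2, ?_⟩
                  have h2 : d.1 ++ [d.2] <+: c := mem_stp.1 (by simpa using hd1)
                  have h3 : c <+: c ++ [b] := List.prefix_append _ _
                  have h4 := map_spec g2 ((h2.trans h3).trans hcb)
                  rw [← h4, hd2]
                  exact hX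
                · right
                  set T' : Oracle := Function.update T t (!b) with hT'
                  have hS' : Separates T' {t | Acc V₀ p₀ B t} {t | Acc V₁ p₁ B t} := by
                    refine ⟨fun s hs' => ?_, fun s hs' => ?_⟩
                    · have : s ≠ t := fun h => h0 (h ▸ hs')
                      rw [hT', Function.update_of_ne this]
                      exact hT.1 s hs'
                    · have : s ≠ t := fun h => h1 (h ▸ hs')
                      rw [hT', Function.update_of_ne this]
                      exact hT.2 s hs'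
                  obtain ⟨z', hz1', -⟩ := hz T' hS'
                  obtain ⟨k1, k2, k3, k4⟩ := answers_spec hz1'
                  refine ⟨_, (hW _).2 ⟨T', hS', rfl⟩, mem_pre.2 ?_⟩
                  have hTt : T' t = !b := by rw [hT', Function.update_self]
                  have hdiff : ∀ q, join T B q ≠ join T' B q → q = false :: t := by
                    intro q hq'
                    rcases q with _ | ⟨e, s⟩
                    · exact absurd rfl hq'
                    · cases e with
                      | true => exact absurd rfl hq'
                      | false =>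
                        by_contra hne
                        apply hq'
                        change T s = T' s
                        rw [hT', Function.update_of_ne]
                        rintro rfl
                        exact hne rfl
                  have hno : ¬ c ++ [b] <+: answers M (join T' B) x := by
                    intro h
                    have h2 := map_spec k2 h
                    rw [hq] at h2
                    have h3 : T' t = b := h2
                    rw [hTt] at h3
                    cases b <;> simp at h3
                  rcases split_or (a := answers M (join T B) x) (a' := answers M (join T' B) x) with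
                    h | h | ⟨c', b', h2, h3⟩
                  · exact absurd (hcb.trans h) hno
                  · have h2 := eq_of_prefix (valid_spec k1).2 g1 h
                    rw [← h2] at hcb
                    exact absurd hcb hno
                  · have e1 := map_spec g2 h2
                    have e2 := map_spec k2 h3
                    have e3 : nxt M x c' = false :: t := by
                      apply hdiff
                      rw [e1, e2]
                      cases b' <;> simp
                    rcases lt_trichotomy c'.length c.length with hl | hl | hl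
                    · exfalso
                      apply hr
                      refine ⟨(c', b'), mem_stp.2 ?_, e3⟩
                      have h4 : c <+: answers M (join T B) x := (List.prefix_append c [b]).trans hcb
                      exact List.prefix_of_prefix_length_le h2 h4 (by
                        rw [List.length_append, List.length_singleton]; omega)
                    · have h4 : c' ++ [b'] = c ++ [b] := by
                        have h5 := List.prefix_of_prefix_length_le h2 hcb (by
                          rw [List.length_append, List.length_append]; simp [hl])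
                        exact h5.eq_of_length (by rw [List.length_append, List.length_append]; simp [hl])
                      have h5 := List.append_inj' h4 rfl
                      have h6 : b' = b := by simpa using h5.2
                      rw [h5.1, h6] at h3
                      exact h3
                    · exfalso
                      apply hno
                      have h4 : c' <+: answers M (join T B) x := (List.prefix_append c' [b']).trans h2
                      have h5 := List.prefix_of_prefix_length_le hcb h4 (by
                        rw [List.length_append, List.length_singleton]; omega)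
                      exact (h5.trans (List.prefix_append c' [!b'])).trans h3
    · intro κ hκ
      obtain ⟨a, -, ha⟩ := List.mem_flatMap.1 hκ
      obtain ⟨c, b, -, -, ⟨-, h1, h2⟩ | ⟨-, h1, h2⟩⟩ := mem_kaps.1 ha
      · obtain ⟨w, v, h3, h4, -⟩ := kap_spec true h1
        rw [h2, h3]
        exact h4
      · obtain ⟨w, v, h3, h4, -⟩ := kap_spec false h1
        rw [h2, h3]
        exact h4
  · intro f hf
    rcases List.mem_append.1 hf with h | h
    · obtain ⟨a, ha, hfa⟩ := List.mem_flatMap.1 h
      obtain ⟨T, hT, rfl⟩ := (hW a).1 ha
      obtain ⟨z, hz1, hz2⟩ := hz T hT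
      obtain ⟨g1, g2, g3, g4⟩ := answers_spec hz1
      obtain ⟨g, hg, hfg⟩ := List.mem_flatMap.1 hfa
      have h1 := zip_true g2 hg
      rcases hgq : g.1 with _ | ⟨d, t⟩
      · rw [hgq] at hfg
        simp at hfg
      · cases d with
        | false =>
          rw [hgq] at hfg
          simp at hfg
        | true =>
          rw [hgq] at hfg h1
          simp only [List.head?_cons, if_true, reduceIte, List.tail_cons, List.mem_singleton] at hfg
          rw [hfg]
          exact h1
    · obtain ⟨κ, hκ, hfκ⟩ := List.mem_flatMap.1 h
      obtain ⟨a, -, ha⟩ := List.mem_flatMap.1 hκ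
      obtain ⟨c, b, -, -, ⟨-, h1, h2⟩ | ⟨-, h1, h2⟩⟩ := mem_kaps.1 ha
      · obtain ⟨w, v, h3, h4, h5, -⟩ := kap_spec true h1
        rw [h2, h3] at hfκ
        exact h5 f hfκ
      · obtain ⟨w, v, h3, h4, h5, -⟩ := kap_spec false h1
        rw [h2, h3] at hfκ
        exact h5 f hfκ

end Pool.Agent.J4H63.EY
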