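import Pool.Agent.J4H63.EY.Bai
import Pool.Agent.J4H63.GO.Taut

/-!
# The equivalences, and the case of SAT
-/

namespace Pool.Agent.J4H63.EY

open Pool.Agent.NPC Pool.Agent.H628R3.RO Pool.Agent.J4H63.ESY Pool.Agent.J4H63.GO

theorem log_of {B : Oracle} {L : Set (List Bool)} (h0 : IsNP B L) (h1 : IsCoNP B L) :
    IsPair (IsNP B) L Lᶜ ∧ ∃ M, LogOutside B L Lᶜ M ∧ ∀ T, Separates T L Lᶜ → Decides M T B L := by
  classical
  refine ⟨⟨h0, h1, fun x h => h.2 h.1⟩, ?_⟩
  set S : Oracle := fun t => decide (t ∈ L) with hS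
  have hT : ∀ T : Oracle, Separates T L Lᶜ → T = S := by
    intro T hT
    funext t
    by_cases h : t ∈ L
    · rw [hT.1 t h, hS]
      simp [h]
    · rw [hT.2 t h, hS]
      simp [h]
  have h2 : IsFP (join S B) (fun x => ([false :: x] : List (List Bool)).map (join S B)) := by
    refine IsFP.tt (A := join S B) (Q := fun x => [false :: x]) (H := fun p => p.2) ?_
      (Poly.snd Poly.id)
    exact Poly.cons (Poly.cons (NPC.Poly.const _) Poly.id) (NPC.Poly.const [])
  obtain ⟨M, hM⟩ := h2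
  refine ⟨M, ⟨0, fun x T _ => ?_⟩, fun T hT' => ?_⟩
  · have h3 : {t | t ∉ L ∧ t ∉ Lᶜ ∧ (false :: t) ∈ qs M x (answers M (join T B) x)} = ∅ := by
      ext t
      simp only [Set.mem_ofPred_eq, Set.mem_compl_iff, not_not, Set.mem_empty_iff_false, iff_false]
      exact fun h => h.1 h.2.1
    rw [h3]
    simp
  · rw [hT T hT']
    intro x
    refine ⟨_, hM x, ?_⟩
    simp only [List.map_cons, List.map_nil]
    change x ∈ L ↔ [S x] = [true]
    rw [hS]
    simp

theorem tfae (B : Oracle) (L : Set (List Bool)) : List.TFAE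
    [IsNP B L ∧ IsCoNP B L,
     ∃ L₀ L₁, IsPair (IsNP B) L₀ L₁ ∧
       ∀ T, Separates T L₀ L₁ → ∃ M, FewComputations B L₀ L₁ M ∧ Decides M T B L,
     ∃ L₀ L₁, IsPair (IsNP B) L₀ L₁ ∧
       ∀ T, Separates T L₀ L₁ → ∃ M, LogOutside B L₀ L₁ M ∧ Decides M T B L,
     ∃ L₀ L₁, IsPair (IsNP B) L₀ L₁ ∧
       ∃ M, LogOutside B L₀ L₁ M ∧ ∀ T, Separates T L₀ L₁ → Decides M T B L] := by
  tfae_have 1 → 4 := by
    rintro ⟨h0, h1⟩
    obtain ⟨h2, M, h3, h4⟩ := log_of h0 h1
    exact ⟨L, Lᶜ, h2, M, h3, h4⟩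
  tfae_have 4 → 3 := by
    rintro ⟨L₀, L₁, h, M, h1, h2⟩
    exact ⟨L₀, L₁, h, fun T hT => ⟨M, h1, h2 T hT⟩⟩
  tfae_have 3 → 2 := by
    rintro ⟨L₀, L₁, h, h1⟩
    refine ⟨L₀, L₁, h, fun T hT => ?_⟩
    obtain ⟨M, h2, h3⟩ := h1 T hT
    exact ⟨M, few_of_log h2, h3⟩
  tfae_have 2 → 1 := by
    rintro ⟨L₀, L₁, h, h1⟩
    exact conp_of_few h h1
  tfae_finish

/-! ## SAT -/

theorem length_flatten_le {α : Type} [TEnc α] (l : List (List α)) : l.flatten.length ≤ sz l := by
  induction l with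
  | nil => simp
  | cons a l ih =>
    rw [List.flatten_cons, List.length_append, sz_list_cons]
    have := length_lt_sz a
    omega

theorem sz_le_of_mem_flatten {α : Type} [TEnc α] {l : List (List α)} {a : α}
    (h : a ∈ l.flatten) : sz a ≤ sz l := by
  obtain ⟨c, hc, ha⟩ := List.mem_flatten.1 h
  exact (sz_le_of_mem ha).le.trans (sz_le_of_mem hc).le

theorem inNP_SAT : InNP (lang SAT) := by
  classical
  refine inNPP_of (α := List (List (Bool × ℕ))) (β := List ℕ)
    (R := fun t => t.1.all (fun c => c.any (fun l => decide (decide (l.2 ∈ t.2) = l.1)))) ?_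
    (Polynomial.X * (Polynomial.X + 1) + 1) fun φ => ?_
  · refine Poly.all (p := fun (t : List (List (Bool × ℕ)) × List ℕ) c =>
      c.any (fun l => decide (decide (l.2 ∈ t.2) = l.1))) (Poly.fst Poly.id) ?_
    refine Poly.any (p := fun (t : (List (List (Bool × ℕ)) × List ℕ) × List (Bool × ℕ)) l =>
      decide (decide (l.2 ∈ t.1.2) = l.1)) (Poly.snd Poly.id) ?_
    have h1 : Poly (fun t : ((List (List (Bool × ℕ)) × List ℕ) × List (Bool × ℕ)) × (Bool × ℕ) =>
        decide (t.2.2 ∈ t.1.1.2)) := (Poly.decide_mem (Poly.snd (Poly.snd Poly.id))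
      (Poly.snd (Poly.fst (Poly.fst Poly.id)))).congr fun a => decide_eq_decide.2 Iff.rfl
    exact Poly.decide_eq h1 (Poly.fst (Poly.snd Poly.id))
  · simp only [List.all_eq_true, List.any_eq_true, decide_eq_true_eq, Polynomial.eval_add,
      Polynomial.eval_mul, Polynomial.eval_X, Polynomial.eval_one]
    constructor
    · rintro ⟨τ, hτ⟩
      refine ⟨(φ.flatten.map Prod.snd).filter τ, ?_, ?_⟩
      · refine (sz_le_length_mul _ (sz φ) fun n hn => ?_).trans ?_
        · obtain ⟨l, hl, rfl⟩ := List.mem_map.1 (List.mem_of_mem_filter hn)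
          have h1 := sz_le_of_mem_flatten hl
          have h2 : sz l = sz l.1 + sz l.2 + 1 := by
            rw [← sz_pair]
          omega
        · have h1 := List.length_filter_le τ (φ.flatten.map Prod.snd)
          rw [List.length_map] at h1
          have h2 := length_flatten_le φ
          have h3 := Nat.mul_le_mul_right (sz φ + 1) (h1.trans h2)
          omega
      · intro c hc
        obtain ⟨l, hl, h⟩ := hτ c hc
        refine ⟨l, hl, ?_⟩
        have h1 : l.2 ∈ φ.flatten.map Prod.snd :=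
          List.mem_map.2 ⟨l, List.mem_flatten.2 ⟨c, hc, hl⟩, rfl⟩
        rw [← h]
        by_cases h2 : τ l.2 = true
        · rw [h2, decide_eq_true_eq, List.mem_filter]
          exact ⟨h1, h2⟩
        · have h3 : τ l.2 = false := by simpa using h2
          rw [h3, decide_eq_false_iff_not, List.mem_filter]
          rintro ⟨-, h4⟩
          exact h2 h4
    · rintro ⟨w, -, hw⟩
      refine ⟨fun n => decide (n ∈ w), fun c hc => ?_⟩
      obtain ⟨l, hl, h⟩ := hw c hc
      exact ⟨l, hl, h⟩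

theorem isNP_noO {L : Set (List Bool)} : IsNP noO L ↔ InNP L := by
  unfold IsNP InNP
  simp only [isFP_noO]

theorem hard_noO {K : Set (List Bool)} (hK : NPHard K) : NPHardRel noO K := by
  intro L hL
  obtain ⟨f, hf, h⟩ := hK L (isNP_noO.1 hL)
  exact ⟨f, isFP_noO.2 hf, h⟩

theorem isNP_of_red {B : Oracle} {L K : Set (List Bool)} (h : Red B L K) (hK : IsNP B K) :
    IsNP B L := by
  obtain ⟨F, hF, hr⟩ := h
  obtain ⟨V, p, hV, h3⟩ := hK
  obtain ⟨b, hb⟩ := IsFP.length_le hF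
  have hG : IsFP B (fun y => pairBits (F (unpair y).1) (unpair y).2) :=
    IsFP.pair (IsFP.comp hF (IsFP.of_poly (Poly.fst poly_unpair)))
      (IsFP.of_poly (Poly.snd poly_unpair))
  have hH : Poly (fun z : List Bool => if (unpair (unpair z).1).2.length ≤
      p.eval (unpair (unpair z).1).1.length then (unpair z).2 else []) := by
    have h4 : Poly (fun z : List Bool => unpair (unpair z).1) :=
      poly_unpair.comp (Poly.fst poly_unpair)
    exact Poly.ite (p := fun z : List Bool => (unpair (unpair z).1).2.length ≤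
      p.eval (unpair (unpair z).1).1.length) (Poly.decide_le (Poly.length (Poly.snd h4))
      (UPoly.toPoly (UPoly.eval (UPoly.length (Poly.fst h4)) p))) (Poly.snd poly_unpair)
      (NPC.Poly.const _)
  refine ⟨_, p.comp b, IsFP.comp (IsFP.of_poly (A := B) hH) (IsFP.pair hG (IsFP.comp hV hG)),
    fun x => ?_⟩
  rw [hr x, h3]
  simp only [unpair_pairBits]
  constructor
  · rintro ⟨w, h4, h5⟩
    refine ⟨w, ?_, by rw [if_pos h4, h5]⟩
    rw [Polynomial.eval_comp]
    exact h4.trans (NPC.eval_mono p (hb x))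
  · rintro ⟨w, -, h5⟩
    split_ifs at h5 with h4
    · exact ⟨w, h4, h5⟩

theorem isNP_const (B : Oracle) (b : Bool) : IsNP B {_x | b = true} := by
  refine isNP_of_tt B _ (Q := fun _ => []) (T := fun _ => b) (NPC.Poly.const []) (NPC.Poly.const b)
    0 fun x => ?_
  simp only [Set.mem_ofPred_eq]
  exact ⟨fun h => ⟨[], by simp, h⟩, fun ⟨_, _, h⟩ => h⟩

/-- the question for complete sets -/
theorem complete_iff {B : Oracle} {K : Set (List Bool)} (hK : IsNP B K) (hK' : NPHardRel B K) :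
    (∃ L₀ L₁ : Set (List Bool), L₀.Nonempty ∧ L₁.Nonempty ∧ IsPair (IsNP B) L₀ L₁ ∧
      ∀ T, Separates T L₀ L₁ → ∃ M, FewComputations B L₀ L₁ M ∧ Decides M T B K) ↔
    ∀ L, IsNP B L → IsCoNP B L := by
  constructor
  · rintro ⟨L₀, L₁, -, -, h, h1⟩ L hL
    obtain ⟨-, h2⟩ := conp_of_few h h1
    obtain ⟨F, hF, hr⟩ := hK' L hL
    exact isNP_of_red (L := Lᶜ) (K := Kᶜ) ⟨F, hF, fun x => not_congr (hr x)⟩ h2
  · intro h
    obtain ⟨h2, M, h3, h4⟩ := log_of hK (h K hK)
    obtain ⟨F, -, hF⟩ := hK' _ (isNP_const B true)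
    obtain ⟨G, -, hG⟩ := hK' _ (isNP_const B false)
    refine ⟨K, Kᶜ, ⟨F [], (hF []).1 rfl⟩, ⟨G [], fun h5 => ?_⟩, h2, fun T hT =>
      ⟨M, few_of_log h3, h4 T hT⟩⟩
    exact absurd ((hG []).2 h5) (by simp)

/-- the question for `NP`-complete sets, without an oracle -/
theorem np_iff {K : Set (List Bool)} (hK : InNP K) (hK' : NPHard K) :
    (∃ L₀ L₁ : Set (List Bool), L₀.Nonempty ∧ L₁.Nonempty ∧ IsPair InNP L₀ L₁ ∧
      ∀ T, Separates T L₀ L₁ → ∃ M, FewComputations (fun _ => false) L₀ L₁ M ∧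
        Decides M T (fun _ => false) K) ↔
    ∀ L, InNP L → InNP Lᶜ := by
  have h := complete_iff (isNP_noO.2 hK) (hard_noO hK')
  have e : (IsNP noO) = InNP := by
    funext L
    exact propext isNP_noO
  rw [e] at h
  refine h.trans (forall_congr' fun L => imp_congr_right fun _ => ?_)
  unfold IsCoNP
  rw [isNP_noO]

/-- the question for SAT, without an oracle -/
theorem sat_iff : (∃ L₀ L₁ : Set (List Bool), L₀.Nonempty ∧ L₁.Nonempty ∧ IsPair InNP L₀ L₁ ∧
      ∀ T, Separates T L₀ L₁ → ∃ M, FewComputations (fun _ => false) L₀ L₁ M ∧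
        Decides M T (fun _ => false) (lang SAT)) ↔
    ∀ L, InNP L → InNP Lᶜ := np_iff inNP_SAT npHard_SAT

end Pool.Agent.J4H63.EY
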