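import Pool.Agent.J4H63.ESY.Defs

/-!
# Definition: some disjoint NP-pair is hard for a given set
-/

namespace Pool.Agent.J4H63.EY

open Pool.Agent.NPC Pool.Agent.H628R3.RO Pool.Agent.J4H63.ESY

/-- Relative to `B`, some disjoint NP-pair (of nonempty sets) is hard for `L`: the language `L` is
polynomial-time Turing reducible to each of its separators. -/
def HasHardPair (B : Oracle) (L : Set (List Bool)) : Prop :=
  ∃ L₀ L₁ : Set (List Bool), L₀.Nonempty ∧ L₁.Nonempty ∧ IsPair (IsNP B) L₀ L₁ ∧
    ∀ T : Oracle, Separates T L₀ L₁ → IsP (join T B) L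

end Pool.Agent.J4H63.EY
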