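import Pool.Agent.J4H63.EY.GDefs
import Pool.Agent.J4H63.EY.Bai
import Pool.Agent.J4H63.GO.Taut

/-!
# Hard disjoint NP-pairs for old sets, relative to a generic oracle
-/

namespace Pool.Agent.J4H63.EY

open Pool.Agent.NPC Pool.Agent.H628R3.RO Pool.Agent.J4H63.ESY Pool.Agent.J4H63.GO Filter

/-- reductions between oracles are kept by joins -/
theorem oneRed_join (T : Oracle) {O' O : Oracle} (h : OneRed O' O) :
    OneRed (join T O') (join T O) := by
  obtain ⟨g, τ, hg, hτ, h⟩ := h
  refine ⟨fun q => if q.head? = some true then true :: g q.tail else q,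
    fun p => if p.1.head? = some true then τ (p.1.tail, p.2) else p.2, ?_, ?_, fun q => ?_⟩
  · exact Poly.ite (p := fun q : List Bool => q.head? = some true)
      (Poly.decide_eq (Poly.head? Poly.id) (NPC.Poly.const _))
      (Poly.cons (NPC.Poly.const _) (hg.comp (Poly.tail Poly.id))) Poly.id
  · exact Poly.ite (p := fun p : List Bool × Bool => p.1.head? = some true)
      (Poly.decide_eq (Poly.head? (Poly.fst Poly.id)) (NPC.Poly.const _))
      (hτ.comp (Poly.pair (Poly.tail (Poly.fst Poly.id)) (Poly.snd Poly.id))) (Poly.snd Poly.id)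
  · rcases q with _ | ⟨b, q⟩
    · rfl
    · cases b with
      | false => rfl
      | true => exact h q

theorem isP_of_oneRed {O' O : Oracle} (h : OneRed O' O) {L : Set (List Bool)} (hL : IsP O' L) :
    IsP O L := by
  obtain ⟨F, hF, h'⟩ := hL
  exact ⟨F, h.isFP hF, h'⟩

theorem HasHardPair.lift {O' O : Oracle} (h : OneRed O' O) {L : Set (List Bool)}
    (hL : HasHardPair O' L) : HasHardPair O L := by
  obtain ⟨L₀, L₁, n0, n1, ⟨h0, h1, hd⟩, hT⟩ := hL
  exact ⟨L₀, L₁, n0, n1, ⟨h.isNP h0, h.isNP h1, hd⟩, fun T hs =>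
    isP_of_oneRed (oneRed_join T h) (hT T hs)⟩

theorem decides_of_isP {T B : Oracle} {L : Set (List Bool)} (h : IsP (join T B) L) :
    ∃ M, Decides M T B L := by
  obtain ⟨F, ⟨M, hM⟩, h⟩ := h
  exact ⟨M, fun x => ⟨F x, hM x, h x⟩⟩

theorem isP_of_decides {M : Alg} {T B : Oracle} {L : Set (List Bool)} (h : Decides M T B L) :
    IsP (join T B) L := by
  choose F h1 h2 using h
  exact ⟨F, ⟨M, h1⟩, h2⟩

theorem acc_congr (V : Alg) (p : Polynomial ℕ) (E : Oracle) : ∃ qv : Polynomial ℕ,
    ∀ (B B' : Oracle) (t : List Bool) (N : ℕ), t.length ≤ N →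
      (∀ s : List Bool, s.length ≤ qv.eval N → B s = B' s) →
      (ESY.Acc V p (join B E) t ↔ ESY.Acc V p (join B' E) t) := by
  obtain ⟨qv, h⟩ := coL_congr V p E
  have e : ∀ (X : Oracle) (t : List Bool), ESY.Acc V p X t ↔ t ∉ CoL V p X := by
    intro X t
    unfold ESY.Acc CoL
    simp only [Set.mem_ofPred_eq, not_forall, not_not, exists_prop]
  refine ⟨qv, fun B B' t N ht hB => ?_⟩
  have hq := NPC.eval_mono qv ht
  rw [e, e, not_iff_not]
  exact ⟨h B B' t fun s hs => hB s (hs.trans hq),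
    h B' B t fun s hs => (hB s (hs.trans hq)).symm⟩

/-- acceptance by an arbitrary algorithm is in `NP` -/
theorem isNP_acc (V : Alg) (p : Polynomial ℕ) (X : Oracle) : IsNP X {t | ESY.Acc V p X t} := by
  have hin : Poly (fun s : List Bool × List Bool => pairBits s.1 (unpair s.2).1) :=
    H622R2.poly_pairBits (Poly.fst Poly.id) (Poly.fst (poly_unpair.comp (Poly.snd Poly.id)))
  have ha : Poly (fun s : List Bool × List Bool => (unpair s.2).2) :=
    Poly.snd (poly_unpair.comp (Poly.snd Poly.id))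
  have hw : Poly (fun s : List Bool × List Bool => (unpair s.2).1) :=
    Poly.fst (poly_unpair.comp (Poly.snd Poly.id))
  have h1 : Poly (fun s : (List Bool × List Bool) × List Bool => s.1) := Poly.fst Poly.id
  refine isNP_of_tt X _ (Q := fun s => qs V (pairBits s.1 (unpair s.2).1) (unpair s.2).2)
    (T := fun s => okV V p s.1.1 (unpair s.1.2).1 (unpair s.1.2).2 &&
      decide ((unpair s.1.2).2 = s.2)) (p_qs V hin ha) ?_
    (2 * p + 1 + V.p.comp (2 * Polynomial.X + 1 + p)) fun x => ?_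
  · exact Poly.and (p_okV V p (Poly.fst h1) (hw.comp h1) (ha.comp h1))
      (Poly.decide_eq (ha.comp h1) (Poly.snd Poly.id))
  · simp only [Set.mem_ofPred_eq, Bool.and_eq_true, decide_eq_true_eq]
    constructor
    · rintro ⟨w, hw, h⟩
      obtain ⟨g1, g2, g3, g4⟩ := answers_spec h
      refine ⟨pairBits w (answers V X (pairBits x w)), ?_, ?_⟩
      · rw [length_pairBits]
        rw [length_pairBits] at g4
        have h2 := NPC.eval_mono V.p (show 2 * x.length + 1 + w.length ≤
          2 * x.length + 1 + p.eval x.length by omega)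
        simp only [Polynomial.eval_add, Polynomial.eval_mul, Polynomial.eval_ofNat,
          Polynomial.eval_one, Polynomial.eval_comp, Polynomial.eval_X]
        omega
      · simp only [unpair_pairBits, okV, Bool.and_eq_true, decide_eq_true_eq]
        exact ⟨⟨hw, g1, g3⟩, g2.symm⟩
    · rintro ⟨y, -, h2, h3⟩
      simp only [okV, Bool.and_eq_true, decide_eq_true_eq] at h2
      have h4 := out_of_transcript h2.2.1 h3.symm
      rw [h2.2.2] at h4
      exact ⟨_, h2.1, h4⟩

/-- the local condition at `x` -/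
def Rloc (V₀ : Alg) (p₀ : Polynomial ℕ) (V₁ : Alg) (p₁ : Polynomial ℕ) (M : Alg)
    (qb : Polynomial ℕ) (E : Oracle) (L : Set (List Bool)) (x : List Bool) (G : Oracle) : Prop :=
  ¬ (ESY.Acc V₀ p₀ (join G E) x ∧ ESY.Acc V₁ p₁ (join G E) x) ∧
  ∀ T : Oracle, (∀ t : List Bool, t.length ≤ qb.eval x.length →
    (ESY.Acc V₀ p₀ (join G E) t → T t = true) ∧ (ESY.Acc V₁ p₁ (join G E) t → T t = false)) →
    ∃ z, M.out (join T (join G E)) x = some z ∧ (x ∈ L ↔ z = [true])

theorem isClosed_Rloc (V₀ : Alg) (p₀ : Polynomial ℕ) (V₁ : Alg) (p₁ : Polynomial ℕ) (M : Alg)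
    {qb : Polynomial ℕ} (hqb : ∀ (A A' : Oracle) (u : List Bool) (N : ℕ), u.length ≤ N →
      (∀ x : List Bool, x.length ≤ qb.eval N → A x = A' x) → M.out A u = M.out A' u)
    (E : Oracle) (L : Set (List Bool)) : IsClosed {G | ∀ x, Rloc V₀ p₀ V₁ p₁ M qb E L x G} := by
  obtain ⟨q0, h0⟩ := acc_congr V₀ p₀ E
  obtain ⟨q1, h1⟩ := acc_congr V₁ p₁ E
  refine isClosed_forall (R := fun x G => Rloc V₀ p₀ V₁ p₁ M qb E L x G) fun x =>
    ⟨q0.eval (x.length + qb.eval x.length) + q1.eval (x.length + qb.eval x.length) +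
      qb.eval x.length, loc_of_imp fun G G' hG hR => ?_⟩
  have hG' : ∀ s : List Bool, s.length ≤ q0.eval (x.length + qb.eval x.length) +
      q1.eval (x.length + qb.eval x.length) + qb.eval x.length → G s = G' s := hG
  obtain ⟨r1, r2⟩ := hR
  have a0 : ∀ t : List Bool, t.length ≤ x.length + qb.eval x.length →
      (ESY.Acc V₀ p₀ (join G E) t ↔ ESY.Acc V₀ p₀ (join G' E) t) := fun t ht =>
    h0 G G' t _ ht fun s hs => hG' s (by omega)
  have a1 : ∀ t : List Bool, t.length ≤ x.length + qb.eval x.length →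
      (ESY.Acc V₁ p₁ (join G E) t ↔ ESY.Acc V₁ p₁ (join G' E) t) := fun t ht =>
    h1 G G' t _ ht fun s hs => hG' s (by omega)
  refine ⟨?_, fun T hT => ?_⟩
  · rw [← a0 x (by omega), ← a1 x (by omega)]
    exact r1
  · obtain ⟨z, e1, e2⟩ := r2 T fun t ht => by
      rw [a0 t (by omega), a1 t (by omega)]
      exact hT t ht
    refine ⟨z, ?_, e2⟩
    rw [← e1]
    refine hqb _ _ x x.length le_rfl fun q hq => ?_
    rcases q with _ | ⟨b, q⟩
    · rfl
    · cases b with
      | false => rfl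
      | true =>
        rcases q with _ | ⟨b, q⟩
        · rfl
        · cases b with
          | true => rfl
          | false =>
            simp only [List.length_cons] at hq
            exact (hG' q (by omega)).symm

/-- from a generic extension to the base -/
theorem down_pair {G E : Oracle} {L : Set (List Bool)} (hG : ∀ (V₀ : Alg) (p₀ : Polynomial ℕ)
    (V₁ : Alg) (p₁ : Polynomial ℕ) (M : Alg) (qb : Polynomial ℕ),
    (∀ (A A' : Oracle) (u : List Bool) (N : ℕ), u.length ≤ N →
      (∀ x : List Bool, x.length ≤ qb.eval N → A x = A' x) → M.out A u = M.out A' u) →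
    G ∈ {G | ∀ x, Rloc V₀ p₀ V₁ p₁ M qb E L x G} →
    ∃ σ : Facts, Sat σ G ∧ ∀ B, Sat σ B → B ∈ {G | ∀ x, Rloc V₀ p₀ V₁ p₁ M qb E L x G})
    (h : HasHardPair (join G E) L) : HasHardPair E L := by
  classical
  obtain ⟨L₀, L₁, ⟨t₀, ht₀⟩, ⟨t₁, ht₁⟩, hp, hT⟩ := h
  obtain ⟨K₀, K₁, hK, s0, s1, M, -, hM⟩ := uniform (Good := fun _ => True) hp
    fun T hs => (decides_of_isP (hT T hs)).imp fun M hM => ⟨trivial, hM⟩
  obtain ⟨V₀, p₀, rfl⟩ := exists_acc hK.1
  obtain ⟨V₁, p₁, rfl⟩ := exists_acc hK.2.1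
  obtain ⟨qb, hqb⟩ := M.out_congr
  have hmem : G ∈ {G | ∀ x, Rloc V₀ p₀ V₁ p₁ M qb E L x G} := by
    intro x
    refine ⟨hK.2.2 x, fun T hTx => ?_⟩
    set T' : Oracle := fun t => if t.length ≤ qb.eval x.length then T t else
      decide (ESY.Acc V₀ p₀ (join G E) t) with hT'
    have hs : Separates T' {t | ESY.Acc V₀ p₀ (join G E) t} {t | ESY.Acc V₁ p₁ (join G E) t} := by
      refine ⟨fun t ht => ?_, fun t ht => ?_⟩
      · rw [hT']
        simp only
        split_ifs with h1
        · exact (hTx t h1).1 ht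
        · simpa using ht
      · rw [hT']
        simp only
        split_ifs with h1
        · exact (hTx t h1).2 ht
        · simpa using fun h2 => hK.2.2 t ⟨h2, ht⟩
    obtain ⟨z, e1, e2⟩ := hM T' hs x
    refine ⟨z, ?_, e2⟩
    rw [← e1]
    refine hqb _ _ x x.length le_rfl fun q hq => ?_
    rcases q with _ | ⟨b, q⟩
    · rfl
    · cases b with
      | true => rfl
      | false =>
        simp only [List.length_cons] at hq
        change T q = T' q
        rw [hT']
        simp only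
        rw [if_pos (by omega)]
  obtain ⟨σ, hσ, hσ'⟩ := hG V₀ p₀ V₁ p₁ M qb hqb hmem
  obtain ⟨q0, h0⟩ := acc_congr V₀ p₀ E
  obtain ⟨q1, h1⟩ := acc_congr V₁ p₁ E
  set σ' : Facts := σ ++ (table G (q0.eval t₀.length) ++ table G (q1.eval t₁.length)) with hσdef
  have hsat : Sat σ' G := sat_append.2 ⟨hσ, sat_append.2 ⟨sat_table _ _, sat_table _ _⟩⟩
  have hcons : Sat σ' (ofFacts σ') := by
    apply sat_ofFacts
    intro f hf g hg hfg
    rw [← hsat f hf, ← hsat g hg, hfg]
  obtain ⟨k1, k2⟩ := sat_append.1 hcons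
  obtain ⟨k3, k4⟩ := sat_append.1 k2
  have hC := hσ' _ k1
  refine HasHardPair.lift (oneRed_finite σ' E) ⟨{t | ESY.Acc V₀ p₀ (join (ofFacts σ') E) t},
    {t | ESY.Acc V₁ p₁ (join (ofFacts σ') E) t}, ⟨t₀, ?_⟩, ⟨t₁, ?_⟩, ⟨?_, ?_, ?_⟩, fun T hs => ?_⟩
  · exact (h0 G _ t₀ _ le_rfl fun s hs => eq_of_sat_table k3 s hs).1 (s0 ht₀)
  · exact (h1 G _ t₁ _ le_rfl fun s hs => eq_of_sat_table k4 s hs).1 (s1 ht₁)
  · exact isNP_acc V₀ p₀ _
  · exact isNP_acc V₁ p₁ _
  · exact fun x => (hC x).1
  · exact isP_of_decides (M := M) fun x => (hC x).2 T fun t _ => ⟨hs.1 t, hs.2 t⟩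

/-- the closed conditions are forced -/
theorem forced_all (E : Oracle) (L : Set (List Bool)) : ∀ᶠ G in residual Oracle,
    ∀ (V₀ : Alg) (p₀ : Polynomial ℕ) (V₁ : Alg) (p₁ : Polynomial ℕ) (M : Alg) (qb : Polynomial ℕ),
    (∀ (A A' : Oracle) (u : List Bool) (N : ℕ), u.length ≤ N →
      (∀ x : List Bool, x.length ≤ qb.eval N → A x = A' x) → M.out A u = M.out A' u) →
    G ∈ {G | ∀ x, Rloc V₀ p₀ V₁ p₁ M qb E L x G} →
    ∃ σ : Facts, Sat σ G ∧ ∀ B, Sat σ B → B ∈ {G | ∀ x, Rloc V₀ p₀ V₁ p₁ M qb E L x G} := by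
  refine eventually_countable_forall.2 fun V₀ => eventually_countable_forall.2 fun p₀ =>
    eventually_countable_forall.2 fun V₁ => eventually_countable_forall.2 fun p₁ =>
    eventually_countable_forall.2 fun M => eventually_countable_forall.2 fun qb => ?_
  by_cases h : ∀ (A A' : Oracle) (u : List Bool) (N : ℕ), u.length ≤ N →
      (∀ x : List Bool, x.length ≤ qb.eval N → A x = A' x) → M.out A u = M.out A' u
  · filter_upwards [forced (isClosed_Rloc V₀ p₀ V₁ p₁ M h E L)] with G hG _ using hG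
  · exact Eventually.of_forall fun G h' => absurd h' h

/-- for a fixed set nothing changes in a generic extension -/
theorem gen_fixed (E : Oracle) (L : Set (List Bool)) : ∀ᶠ G in residual Oracle,
    (HasHardPair (join G E) L ↔ HasHardPair E L) := by
  filter_upwards [forced_all E L] with G hG
  exact ⟨down_pair hG, HasHardPair.lift (oneRed_right G E)⟩

theorem gen_countable (E : Oracle) (C : Set (Set (List Bool))) (hC : C.Countable) :
    ∀ᶠ G in residual Oracle, ∀ L ∈ C, (HasHardPair (join G E) L ↔ HasHardPair E L) :=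
  (eventually_countable_ball hC).2 fun L _ => gen_fixed E L

theorem countable_NP : {K : Set (List Bool) | InNP K}.Countable := by
  have h : {K : Set (List Bool) | InNP K} ⊆
      Set.range (fun t : Alg × Polynomial ℕ => {x | ESY.Acc t.1 t.2 noO x}) := by
    intro K hK
    have h1 : IsNP noO K := by
      obtain ⟨V, p, hV, h⟩ := hK
      exact ⟨V, p, isFP_noO.2 hV, h⟩
    obtain ⟨V, p, h2⟩ := exists_acc h1
    exact ⟨(V, p), h2.symm⟩
  exact (Set.countable_range _).mono h

theorem hasHardPair_noO (K : Set (List Bool)) : HasHardPair noO K ↔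
    ∃ L₀ L₁ : Set (List Bool), L₀.Nonempty ∧ L₁.Nonempty ∧ IsPair InNP L₀ L₁ ∧
      ∀ T : Oracle, Separates T L₀ L₁ → IsP T K := by
  have e : (IsNP noO) = InNP := by
    funext L
    apply propext
    unfold IsNP InNP
    simp only [isFP_noO]
  unfold HasHardPair
  rw [e]
  refine exists_congr fun L₀ => exists_congr fun L₁ => and_congr_right fun _ =>
    and_congr_right fun _ => and_congr_right fun _ => forall_congr' fun T =>
    imp_congr_right fun _ => ?_
  exact ⟨isP_of_oneRed (oneRed_empty T), isP_of_oneRed (oneRed_left T noO)⟩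

theorem gen_noO : ∀ᶠ G in residual Oracle, ∀ K : Set (List Bool), InNP K → (HasHardPair G K ↔
    ∃ L₀ L₁ : Set (List Bool), L₀.Nonempty ∧ L₁.Nonempty ∧ IsPair InNP L₀ L₁ ∧
      ∀ T : Oracle, Separates T L₀ L₁ → IsP T K) := by
  filter_upwards [gen_countable noO _ countable_NP] with G hG K hK
  rw [← hasHardPair_noO, ← hG K hK]
  exact ⟨HasHardPair.lift (oneRed_left G noO), HasHardPair.lift (oneRed_empty G)⟩

theorem question_iff {K : Set (List Bool)} (hK : InNP K) :
    (¬ ∃ L₀ L₁ : Set (List Bool), L₀.Nonempty ∧ L₁.Nonempty ∧ IsPair InNP L₀ L₁ ∧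
      ∀ T : Oracle, Separates T L₀ L₁ → IsP T K) ↔
    ∀ᶠ G in residual Oracle, ¬ HasHardPair G K := by
  constructor
  · intro h
    filter_upwards [gen_noO] with G hG
    rw [hG K hK]
    exact h
  · intro h hno
    have h1 : ∀ᶠ G in residual Oracle, False := by
      filter_upwards [h, gen_noO] with G h2 h3
      exact h2 ((h3 K hK).2 hno)
    have h2 : (∅ : Set Oracle) ∈ residual Oracle := Filter.empty_mem_iff_bot.2 (by simpa using h1)
    exact (dense_of_mem_residual h2).nonempty.ne_empty rfl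

end Pool.Agent.J4H63.EY
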