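import Pool.Agent.J4H63.EY.Few
import Pool.Agent.J4H63.GO.Inv

/-!
# The check of the certificates is in polynomial time
-/

namespace Pool.Agent.J4H63.EY

open Pool.Agent.NPC Pool.Agent.H628R3.RO Pool.Agent.J4H63.ESY Pool.Agent.J4H63.GO

variable {α : Type} [TEnc α]

theorem p_okV (V : Alg) (p : Polynomial ℕ) {t w v : α → List Bool} (ht : Poly t) (hw : Poly w)
    (hv : Poly v) : Poly (fun a => okV V p (t a) (w a) (v a)) := by
  have hin := H622R2.poly_pairBits ht hw
  exact Poly.and (Poly.decide_le (Poly.length hw) (UPoly.toPoly (UPoly.eval (UPoly.length ht) p)))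
    (Poly.and (p_valid V hin hv) (Poly.decide_eq (p_nxt V hin hv) (NPC.Poly.const _)))

theorem p_okK (V₀ : Alg) (p₀ : Polynomial ℕ) (V₁ : Alg) (p₁ : Polynomial ℕ) {κ : α → Kap}
    (hκ : Poly κ) : Poly (fun a => okK V₀ p₀ V₁ p₁ (κ a)) := by
  have h1 := Poly.fst (Poly.fst hκ)
  have h2 := Poly.fst (Poly.snd hκ)
  have h3 := Poly.snd (Poly.snd hκ)
  exact Poly.ite (Poly.decide_eq (Poly.snd (Poly.fst hκ)) (NPC.Poly.const true))
    (p_okV V₀ p₀ h1 h2 h3) (p_okV V₁ p₁ h1 h2 h3)

theorem p_factsK (V₀ V₁ : Alg) {κ : α → Kap} (hκ : Poly κ) :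
    Poly (fun a => factsK V₀ V₁ (κ a)) := by
  have h1 := Poly.fst (Poly.fst hκ)
  have h2 := Poly.fst (Poly.snd hκ)
  have h3 := Poly.snd (Poly.snd hκ)
  have hin := H622R2.poly_pairBits h1 h2
  exact Poly.ite (Poly.decide_eq (Poly.snd (Poly.fst hκ)) (NPC.Poly.const true))
    (Poly.zip (p_qs V₀ hin h3) h3) (Poly.zip (p_qs V₁ hin h3) h3)

theorem p_factsT (M : Alg) {x v : α → List Bool} (hx : Poly x) (hv : Poly v) :
    Poly (fun a => factsT M (x a) (v a)) := by
  refine Poly.flatMap (F := fun (_ : α) (t : List Bool × Bool) =>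
    if t.1.head? = some true then [(t.1.tail, t.2)] else []) (Poly.zip (p_qs M hx hv) hv) ?_
  have h2 : Poly (fun p : α × (List Bool × Bool) => p.2) := Poly.snd Poly.id
  exact Poly.ite (Poly.decide_eq (Poly.head? (Poly.fst h2)) (NPC.Poly.const _))
    (Poly.cons (Poly.pair (Poly.tail (Poly.fst h2)) (Poly.snd h2)) (NPC.Poly.const []))
    (NPC.Poly.const [])

theorem p_stp {v : α → List Bool} (hv : Poly v) : Poly (fun a => stp (v a)) :=
  Poly.zip (p_pre hv) hv

theorem p_okS (M : Alg) {x : α → List Bool} {W : α → List (List Bool)} {K : α → List Kap}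
    {s : α → List Bool × Bool} (hx : Poly x) (hW : Poly W) (hK : Poly K) (hs : Poly s) :
    Poly (fun a => okS M (x a) (W a) (K a) (s a)) := by
  have hn : Poly (fun a => nxt M (x a) (s a).1) := p_nxt M hx (Poly.fst hs)
  have h0 : Poly (fun p : α × Kap => p.1) := Poly.fst Poly.id
  have h1 : Poly (fun p : α × (List Bool × Bool) => p.1) := Poly.fst Poly.id
  have h2 : Poly (fun p : α × List Bool => p.1) := Poly.fst Poly.id
  refine Poly.ite (Poly.decide_eq (Poly.head? hn) (NPC.Poly.const _)) (NPC.Poly.const true)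
    (Poly.ite (Poly.decide_eq (Poly.head? hn) (NPC.Poly.const _)) (Poly.or ?_ (Poly.or ?_ ?_))
      (Poly.not (Poly.snd hs)))
  · refine Poly.any (p := fun a (κ : Kap) => decide (κ.1 = ((nxt M (x a) (s a).1).tail, (s a).2)))
      hK ?_
    exact Poly.decide_eq (Poly.fst (Poly.snd Poly.id))
      (Poly.pair (Poly.tail (hn.comp h0)) (Poly.snd (hs.comp h0)))
  · refine Poly.any (p := fun a (d : List Bool × Bool) =>
      decide (nxt M (x a) d.1 = nxt M (x a) (s a).1) && decide (d.2 = (s a).2))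
      (p_stp (Poly.fst hs)) ?_
    exact Poly.and (Poly.decide_eq (p_nxt M (hx.comp h1) (Poly.fst (Poly.snd Poly.id))) (hn.comp h1))
      (Poly.decide_eq (Poly.snd (Poly.snd Poly.id)) (Poly.snd (hs.comp h1)))
  · refine Poly.any (p := fun a (a' : List Bool) =>
      decide ((s a).1 ++ [!(s a).2] ∈ pre a' ++ [a'])) hW ?_
    have hm : Poly (fun p : α × List Bool => (s p.1).1 ++ [!(s p.1).2]) :=
      Poly.append (Poly.fst (hs.comp h2)) (Poly.cons (Poly.not (Poly.snd (hs.comp h2)))
        (NPC.Poly.const []))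
    have hl : Poly (fun p : α × List Bool => pre p.2 ++ [p.2]) :=
      Poly.append (p_pre (Poly.snd Poly.id)) (Poly.cons (Poly.snd Poly.id) (NPC.Poly.const []))
    exact (Poly.decide_mem hm hl).congr fun a => decide_eq_decide.2 Iff.rfl

theorem p_okA (M : Alg) (acc : Bool) {x : α → List Bool} {W : α → List (List Bool)}
    {K : α → List Kap} {v : α → List Bool} (hx : Poly x) (hW : Poly W) (hK : Poly K)
    (hv : Poly v) : Poly (fun a => okA M acc (x a) (W a) (K a) (v a)) := by
  have h1 : Poly (fun p : α × (List Bool × Bool) => p.1) := Poly.fst Poly.id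
  refine Poly.and (p_valid M hx hv) (Poly.and ?_ ?_)
  · have h2 : Poly (fun a => decide (nxt M (x a) (v a) = [true])) :=
      Poly.decide_eq (p_nxt M hx hv) (NPC.Poly.const _)
    exact Poly.decide_eq h2 (NPC.Poly.const acc)
  · refine Poly.all (p := fun a s => okS M (x a) (W a) (K a) s) (p_stp hv) ?_
    exact p_okS M (hx.comp h1) (hW.comp h1) (hK.comp h1) (Poly.snd Poly.id)

theorem p_chk (M V₀ : Alg) (p₀ : Polynomial ℕ) (V₁ : Alg) (p₁ : Polynomial ℕ) (acc : Bool)
    {x : α → List Bool} {C : α → List (List Bool) × List Kap} (hx : Poly x) (hC : Poly C) :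
    Poly (fun a => chk M V₀ p₀ V₁ p₁ acc (x a) (C a)) := by
  have h1 : Poly (fun p : α × List Bool => p.1) := Poly.fst Poly.id
  have hC1 := Poly.fst hC
  have hC2 := Poly.snd hC
  refine Poly.and (Poly.not (Poly.isEmpty hC1)) (Poly.and ?_ ?_)
  · refine Poly.all (p := fun a v => okA M acc (x a) (C a).1 (C a).2 v) hC1 ?_
    exact p_okA M acc (hx.comp h1) (hC1.comp h1) (hC2.comp h1) (Poly.snd Poly.id)
  · refine Poly.all (p := fun _ κ => okK V₀ p₀ V₁ p₁ κ) hC2 ?_
    exact p_okK V₀ p₀ V₁ p₁ (Poly.snd Poly.id)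

theorem p_fcts (M V₀ V₁ : Alg) {x : α → List Bool} {C : α → List (List Bool) × List Kap}
    (hx : Poly x) (hC : Poly C) : Poly (fun a => fcts M V₀ V₁ (x a) (C a)) := by
  have h1 : Poly (fun p : α × List Bool => p.1) := Poly.fst Poly.id
  refine Poly.append ?_ ?_
  · exact Poly.flatMap (F := fun a v => factsT M (x a) v) (Poly.fst hC)
      (p_factsT M (hx.comp h1) (Poly.snd Poly.id))
  · exact Poly.flatMap (F := fun _ κ => factsK V₀ V₁ κ) (Poly.snd hC)
      (p_factsK V₀ V₁ (Poly.snd Poly.id))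

/-- the certificate coded by a string -/
def decC (y : List Bool) : List (List Bool) × List Kap :=
  (unbits (List (List Bool) × List Kap) y).getD ([], [])

theorem p_decC {y : α → List Bool} (hy : Poly y) : Poly (fun a => decC (y a)) :=
  (p_elim (o := fun a => unbits (List (List Bool) × List Kap) (y a))
    (g := fun _ => (([], []) : List (List Bool) × List Kap))
    (h := fun _ z => z) (poly_unbits.comp hy) (NPC.Poly.const _) (Poly.snd Poly.id)).congr
    fun a => by unfold decC; cases unbits (List (List Bool) × List Kap) (y a) <;> rfl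

theorem decC_bits (z : List (List Bool) × List Kap) : decC (bits z) = z := by
  unfold decC
  rw [unbits_bits]
  rfl

end Pool.Agent.J4H63.EY
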