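import Pool.Agent.J4H63.EY.Pol
import Pool.Agent.H628R3.RO.G1

/-!
# Reductions with few computations give membership in `NP` and `coNP`
-/

namespace Pool.Agent.J4H63.EY

open Pool.Agent.NPC Pool.Agent.H628R3.RO Pool.Agent.J4H63.ESY Pool.Agent.J4H63.GO

theorem sz_kap {V : Alg} {p : Polynomial ℕ} {B : Oracle} {t : List Bool} {b : Bool}
    (h : Acc V p B t) {N : ℕ} (ht : t.length ≤ N) : sz (kap V p B t b) ≤
      4 * N + 4 * p.eval N + 4 * V.p.eval (2 * N + 1 + p.eval N) + 9 := by
  obtain ⟨w, v, h1, -, -, h2, h3⟩ := kap_spec b h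
  rw [h1, sz_pair, sz_pair, sz_pair]
  have e1 := sz_listBool_le t
  have e2 := sz_listBool_le w
  have e3 := sz_listBool_le v
  have e4 := sz_bool_le b
  have e5 := NPC.eval_mono p ht
  rw [length_pairBits] at h3
  have e6 := NPC.eval_mono V.p (show 2 * t.length + 1 + w.length ≤ 2 * N + 1 + p.eval N by omega)
  omega

theorem length_flatMap_le_one {α β : Type} {f : α → List β} (h : ∀ s, (f s).length ≤ 1)
    (l : List α) : (l.flatMap f).length ≤ l.length := by
  induction l with
  | nil => simp
  | cons s l ih =>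
    rw [List.flatMap_cons, List.length_append, List.length_cons]
    have := h s
    omega

/-- the size of a certificate -/
theorem size_bound (M V₀ : Alg) (p₀ : Polynomial ℕ) (V₁ : Alg) (p₁ q : Polynomial ℕ) :
    ∃ r : Polynomial ℕ, ∀ (B : Oracle) (x : List Bool) (W : List (List Bool)),
      W.length ≤ q.eval x.length → (∀ a ∈ W, a.length ≤ M.p.eval x.length) →
      (bits (W, W.flatMap (kaps M V₀ p₀ V₁ p₁ B x))).length ≤ r.eval x.length := by
  obtain ⟨b, hb⟩ := M.next_length
  set S : Polynomial ℕ := 4 * b + 4 * (p₀ + p₁).comp b +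
    4 * (V₀.p + V₁.p).comp (2 * b + 1 + (p₀ + p₁).comp b) + 9 with hS
  refine ⟨q * (4 * M.p + 2) + 1 + (q * M.p * (S + 1) + 1) + 1, fun B x W h1 h2 => ?_⟩
  have hs : ∀ κ ∈ W.flatMap (kaps M V₀ p₀ V₁ p₁ B x), sz κ ≤ S.eval x.length := by
    intro κ hκ
    obtain ⟨a, ha, hκa⟩ := List.mem_flatMap.1 hκ
    obtain ⟨c, e, hce, -, h⟩ := mem_kaps.1 hκa
    have hcl : c.length ≤ M.p.eval x.length := by
      have h3 := hce.length_le
      have h4 := h2 a ha
      rw [List.length_append, List.length_singleton] at h3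
      omega
    have ht : (nxt M x c).tail.length ≤ b.eval x.length := by
      have h3 := hb x c hcl
      unfold nxt
      rw [List.length_tail, List.length_tail]
      omega
    have hS' : S.eval x.length = 4 * b.eval x.length + 4 * (p₀.eval (b.eval x.length) +
        p₁.eval (b.eval x.length)) + 4 * (V₀.p.eval (2 * b.eval x.length + 1 +
          (p₀.eval (b.eval x.length) + p₁.eval (b.eval x.length))) +
        V₁.p.eval (2 * b.eval x.length + 1 +
          (p₀.eval (b.eval x.length) + p₁.eval (b.eval x.length)))) + 9 := by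
      rw [hS]
      simp only [Polynomial.eval_add, Polynomial.eval_mul, Polynomial.eval_ofNat,
        Polynomial.eval_one, Polynomial.eval_comp]
    rcases h with ⟨-, hA, rfl⟩ | ⟨-, hA, rfl⟩
    · have h3 := sz_kap (b := true) hA ht
      have h4 := NPC.eval_mono V₀.p (show 2 * b.eval x.length + 1 + p₀.eval (b.eval x.length) ≤
        2 * b.eval x.length + 1 + (p₀.eval (b.eval x.length) + p₁.eval (b.eval x.length)) by omega)
      omega
    · have h3 := sz_kap (b := false) hA ht
      have h4 := NPC.eval_mono V₁.p (show 2 * b.eval x.length + 1 + p₁.eval (b.eval x.length) ≤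
        2 * b.eval x.length + 1 + (p₀.eval (b.eval x.length) + p₁.eval (b.eval x.length)) by omega)
      omega
  have hK : (W.flatMap (kaps M V₀ p₀ V₁ p₁ B x)).length ≤ q.eval x.length * M.p.eval x.length := by
    have h3 : ∀ a ∈ W, (kaps M V₀ p₀ V₁ p₁ B x a).length ≤ M.p.eval x.length := by
      intro a ha
      refine le_trans ?_ (h2 a ha)
      rw [← length_stp a]
      unfold kaps
      exact length_flatMap_le_one (fun s => by split_ifs <;> simp) _
    refine le_trans ?_ (Nat.mul_le_mul_right _ h1)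
    clear hs h1 h2
    induction W with
    | nil => simp
    | cons a W ih =>
      rw [List.flatMap_cons, List.length_append, List.length_cons]
      have h4 := h3 a (by simp)
      have h5 := ih fun a' ha' => h3 a' (List.mem_cons_of_mem _ ha')
      rw [Nat.add_mul, one_mul]
      omega
  have hW : ∀ a ∈ W, sz a ≤ 4 * M.p.eval x.length + 1 := by
    intro a ha
    have h3 := sz_listBool_le a
    have h4 := h2 a ha
    omega
  have e1 := sz_le_length_mul _ _ hW
  have e2 := sz_le_length_mul _ _ hs
  rw [bits_length, sz_pair]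
  have e3 : W.length * (4 * M.p.eval x.length + 1 + 1) ≤
      q.eval x.length * (4 * M.p.eval x.length + 2) := Nat.mul_le_mul_right _ h1
  have e4 := Nat.mul_le_mul_right (S.eval x.length + 1) hK
  simp only [Polynomial.eval_add, Polynomial.eval_mul, Polynomial.eval_ofNat,
    Polynomial.eval_one]
  omega

theorem isNP_of_few {B : Oracle} {M V₀ V₁ : Alg} {p₀ p₁ q : Polynomial ℕ} {L : Set (List Bool)}
    (hd : ∀ t, ¬ (Acc V₀ p₀ B t ∧ Acc V₁ p₁ B t))
    (hz : ∀ x, ∀ T : Oracle, Separates T {t | Acc V₀ p₀ B t} {t | Acc V₁ p₁ B t} →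
      ∃ z, M.out (join T B) x = some z ∧ (x ∈ L ↔ z = [true]))
    (hq : ∀ x, {a | ∃ T : Oracle, Separates T {t | Acc V₀ p₀ B t} {t | Acc V₁ p₁ B t} ∧
      answers M (join T B) x = a}.encard ≤ q.eval x.length) (acc : Bool) :
    IsNP B {x | x ∈ L ↔ acc = true} := by
  classical
  obtain ⟨r, hr⟩ := size_bound M V₀ p₀ V₁ p₁ q
  refine isNP_of_tt B _ (Q := fun t => (fcts M V₀ V₁ t.1 (decC t.2)).map Prod.fst)
    (T := fun t => chk M V₀ p₀ V₁ p₁ acc t.1.1 (decC t.1.2) &&
      decide ((fcts M V₀ V₁ t.1.1 (decC t.1.2)).map Prod.snd = t.2)) ?_ ?_ r fun x => ?_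
  · refine NPC.Poly.map (F := fun _ (f : List Bool × Bool) => f.1)
      (p_fcts M V₀ V₁ (Poly.fst Poly.id) (p_decC (Poly.snd Poly.id))) (Poly.fst (Poly.snd Poly.id))
  · have h1 : Poly (fun t : (List Bool × List Bool) × List Bool => t.1.1) :=
      Poly.fst (Poly.fst Poly.id)
    have h2 : Poly (fun t : (List Bool × List Bool) × List Bool => decC t.1.2) :=
      p_decC (Poly.snd (Poly.fst Poly.id))
    refine Poly.and (p_chk M V₀ p₀ V₁ p₁ acc h1 h2) (Poly.decide_eq ?_ (Poly.snd Poly.id))
    exact NPC.Poly.map (F := fun _ (f : List Bool × Bool) => f.2)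
      (p_fcts M V₀ V₁ h1 h2) (Poly.snd (Poly.snd Poly.id))
  · have hf : ∀ l : List (List Bool × Bool), l.map Prod.snd = (l.map Prod.fst).map B ↔
        ∀ f ∈ l, B f.1 = f.2 := by
      intro l
      rw [List.map_map, List.map_inj_left]
      exact ⟨fun h f hf => (h f hf).symm, fun h f hf => (h f hf).symm⟩
    have hsep : Separates (fun t => decide (Acc V₀ p₀ B t)) {t | Acc V₀ p₀ B t}
        {t | Acc V₁ p₁ B t} := ⟨fun t ht => by simpa using ht,
        fun t ht => by simpa using fun h => hd t ⟨h, ht⟩⟩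
    simp only [Set.mem_ofPred_eq, Bool.and_eq_true, decide_eq_true_eq]
    constructor
    · intro hx
      have hfin : {a | ∃ T : Oracle, Separates T {t | Acc V₀ p₀ B t} {t | Acc V₁ p₁ B t} ∧
          answers M (join T B) x = a}.Finite := by
        refine Set.encard_lt_top_iff.1 (lt_of_le_of_lt (hq x) ?_)
        exact WithTop.coe_lt_top _
      set W : List (List Bool) := hfin.toFinset.toList with hW
      have hmem : ∀ a, a ∈ W ↔ ∃ T : Oracle,
          Separates T {t | Acc V₀ p₀ B t} {t | Acc V₁ p₁ B t} ∧ a = answers M (join T B) x := by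
        intro a
        rw [hW, Finset.mem_toList, Set.Finite.mem_toFinset]
        exact exists_congr fun T => and_congr_right fun _ => eq_comm
      have hlen : W.length ≤ q.eval x.length := by
        have h1 := hq x
        rw [hfin.encard_eq_coe_toFinset_card] at h1
        rw [hW, Finset.length_toList]
        exact_mod_cast h1
      have hz' : ∀ T : Oracle, Separates T {t | Acc V₀ p₀ B t} {t | Acc V₁ p₁ B t} →
          ∃ z, M.out (join T B) x = some z ∧ (z = [true] ↔ acc = true) := by
        intro T hT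
        obtain ⟨z, h1, h2⟩ := hz x T hT
        exact ⟨z, h1, h2.symm.trans hx⟩
      obtain ⟨c1, c2⟩ := complete hd hz' hmem
      refine ⟨bits (W, W.flatMap (kaps M V₀ p₀ V₁ p₁ B x)), hr B x W hlen ?_, ?_, ?_⟩
      · intro a ha
        obtain ⟨T, hT, rfl⟩ := (hmem a).1 ha
        obtain ⟨z, h1, -⟩ := hz x T hT
        exact (answers_spec h1).2.2.2.le
      · rw [decC_bits]
        exact c1
      · rw [decC_bits]
        exact (hf _).2 c2
    · rintro ⟨w, -, h1, h2⟩
      obtain ⟨z, h3, h4⟩ := hz x _ hsep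
      exact h4.trans (sound h1 ((hf _).1 h2) hsep.1 hsep.2 h3)

end Pool.Agent.J4H63.EY
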