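import Pool.Agent.J4H63.EY.Defs
import Pool.Agent.J4H63.GO.Force

/-!
# Steps of a computation
-/

namespace Pool.Agent.J4H63.EY

open Pool.Agent.NPC Pool.Agent.H628R3.RO Pool.Agent.J4H63.ESY Pool.Agent.J4H63.GO

theorem trace_succ (M : Alg) (X : Oracle) (x : List Bool) (n : ℕ) (a : List Bool) :
    trace M X x (n + 1) a = if asking M x a = true then trace M X x n (a ++ [X (nxt M x a)]) else a := by
  rw [trace]
  unfold asking nxt
  rcases h : M.D (pairBits x a) with _ | ⟨b, q⟩
  · simp
  · cases b <;> simp

theorem trace_of_run {M : Alg} {X : Oracle} {x a' : List Bool} : ∀ (n : ℕ) (a : List Bool),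
    (trAlg M).run X x n a = some a' → trace M X x n a = a' := by
  intro n
  induction n with
  | zero => intro a h; simp [Alg.run] at h
  | succ n ih =>
    intro a h
    rw [trAlg_run] at h
    rw [trace_succ]
    by_cases h1 : asking M x a = true
    · rw [if_pos h1] at h ⊢
      exact ih _ h
    · rw [if_neg h1] at h ⊢
      simpa using h

theorem answers_eq {M : Alg} {X : Oracle} {x a : List Bool} (h : (trAlg M).out X x = some a) :
    answers M X x = a := trace_of_run _ _ h

/-- the computation and its output -/
theorem answers_spec {M : Alg} {X : Oracle} {x z : List Bool} (h : M.out X x = some z) :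
    valid M x (answers M X x) = true ∧ (qs M x (answers M X x)).map X = answers M X x ∧
      nxt M x (answers M X x) = z ∧ (answers M X x).length < M.p.eval x.length := by
  obtain ⟨a, h1, h2, h3, h4, h5⟩ := exists_transcript h
  rw [answers_eq h5]
  exact ⟨h1, h2, h3, h4⟩

/-- the steps of a sequence of answers: the answers before, and the answer -/
def stp (a : List Bool) : List (List Bool × Bool) := (pre a).zip a

theorem stp_concat (a : List Bool) (b : Bool) : stp (a ++ [b]) = stp a ++ [(a, b)] := by
  unfold stp
  rw [pre_concat, List.zip_append (length_pre a)]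
  rfl

theorem mem_stp {a c : List Bool} {b : Bool} : (c, b) ∈ stp a ↔ c ++ [b] <+: a := by
  induction a using List.reverseRecOn with
  | nil => simp [stp, pre_nil]
  | append_singleton a b' ih =>
    rw [stp_concat, List.mem_append, ih, List.prefix_concat_iff]
    simp only [List.mem_singleton, Prod.mk.injEq]
    constructor
    · rintro (h | ⟨rfl, rfl⟩)
      · exact Or.inr h
      · exact Or.inl rfl
    · rintro (h | h)
      · right
        have := List.append_inj' h rfl
        simpa using this
      · exact Or.inl h

theorem mem_pre {a c : List Bool} : c ∈ pre a ++ [a] ↔ c <+: a := by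
  induction a using List.reverseRecOn with
  | nil => simp [pre_nil]
  | append_singleton a b' ih =>
    rw [pre_concat, List.mem_append, ih, List.prefix_concat_iff]
    simp only [List.mem_singleton]
    tauto

theorem length_stp (a : List Bool) : (stp a).length = a.length := by
  rw [stp, List.length_zip, length_pre, Nat.min_self]

/-- a complete sequence of answers is not continued -/
theorem valid_spec {M : Alg} {x a : List Bool} (h : valid M x a = true) :
    (∀ c b, c ++ [b] <+: a → asking M x c = true) ∧ asking M x a = false := by
  simp only [valid, Bool.and_eq_true, Bool.not_eq_true', decide_eq_true_eq, List.all_eq_true] at h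
  refine ⟨fun c b hc => ?_, h.2.1⟩
  have h1 := mem_stp.2 hc
  exact h.1 c (List.of_mem_zip h1).1

/-- the answers are those of the oracle -/
theorem map_spec {M : Alg} {X : Oracle} {x a : List Bool} (h : (qs M x a).map X = a) {c : List Bool}
    {b : Bool} (hc : c ++ [b] <+: a) : X (nxt M x c) = b := by
  have h1 : (stp a).map (fun s => X (nxt M x s.1)) = (stp a).map Prod.snd := by
    have h2 : (stp a).map Prod.snd = a := by
      unfold stp
      rw [List.map_snd_zip]
      rw [length_pre]
    have h3 : (stp a).map (fun s => X (nxt M x s.1)) = (qs M x a).map X := by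
      have h4 : (stp a).map Prod.fst = pre a := by
        unfold stp
        rw [List.map_fst_zip]
        rw [length_pre]
      rw [qs, ← h4, List.map_map, List.map_map]
      rfl
    rw [h2, h3, h]
  have h2 := List.map_inj_left.1 h1 (c, b) (mem_stp.2 hc)
  exact h2

/-- two sequences of answers, of which the first is complete: the first is a beginning of the second or
they separate -/
theorem split_or {a a' : List Bool} : a <+: a' ∨ a' <+: a ∨ ∃ c b, c ++ [b] <+: a ∧ c ++ [!b] <+: a' := by
  induction a generalizing a' with
  | nil => exact Or.inl (List.nil_prefix)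
  | cons b a ih =>
    rcases a' with _ | ⟨b', a'⟩
    · exact Or.inr (Or.inl List.nil_prefix)
    · by_cases h : b = b'
      · subst h
        rcases ih (a' := a') with h | h | ⟨c, d, h1, h2⟩
        · exact Or.inl (List.cons_prefix_cons.2 ⟨rfl, h⟩)
        · exact Or.inr (Or.inl (List.cons_prefix_cons.2 ⟨rfl, h⟩))
        · exact Or.inr (Or.inr ⟨b :: c, d, List.cons_prefix_cons.2 ⟨rfl, h1⟩,
            List.cons_prefix_cons.2 ⟨rfl, h2⟩⟩)
      · refine Or.inr (Or.inr ⟨[], b, ?_, ?_⟩)
        · exact List.cons_prefix_cons.2 ⟨rfl, List.nil_prefix⟩
        · have : b' = !b := by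
            cases b <;> cases b' <;> simp_all
          rw [this]
          exact List.cons_prefix_cons.2 ⟨rfl, List.nil_prefix⟩

/-- two complete sequences of answers which are comparable are equal -/
theorem eq_of_prefix {M : Alg} {x a a' : List Bool} (h : asking M x a = false)
    (h' : valid M x a' = true) (hp : a <+: a') : a = a' := by
  obtain ⟨r, hr⟩ := hp
  rcases r with _ | ⟨b, r⟩
  · rw [← hr, List.append_nil]
  · have h1 : a ++ [b] <+: a' := ⟨r, by rw [← hr]; simp⟩
    have h2 := (valid_spec h').1 a b h1
    rw [h] at h2
    exact absurd h2 (by simp)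

end Pool.Agent.J4H63.EY
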